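import Mathlib

/-!
FQ-DOM: the ideal (Q, F) of k[x_i, y_i] is prime, where Q = sum x_i y_i and
F = sum (c_i x_i^3 + c_i' y_i^3), all c_i, c_i' nonzero, at least three pairs, 3 nonzero in k.
-/

set_option linter.unusedSectionVars false

namespace FQ
namespace Dom

open MvPolynomial

variable {ι : Type*} [DecidableEq ι] {k : Type*} [Field k]

/-- The quadric, sum over the pairs in `s`. -/
noncomputable def qd (k : Type*) [Field k] (s : Finset ι) : MvPolynomial (ι ⊕ ι) k :=
  ∑ i ∈ s, X (Sum.inl i) * X (Sum.inr i)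

/-- The cubic, sum over the pairs in `s`. -/
noncomputable def cb (c : ι ⊕ ι → k) (s : Finset ι) : MvPolynomial (ι ⊕ ι) k :=
  ∑ i ∈ s, (C (c (Sum.inl i)) * X (Sum.inl i) ^ 3 + C (c (Sum.inr i)) * X (Sum.inr i) ^ 3)

/-! ### part 1: the quadric is prime -/

theorem qd_eq (s : Finset ι) :
    qd k s = sumSMulXSMulY (∑ i ∈ s, Finsupp.single i (1 : k)) := by
  rw [map_sum]
  unfold qd
  refine Finset.sum_congr rfl fun i _ => ?_
  rw [sumSMulXSMulY, Finsupp.linearCombination_single, one_smul]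

theorem coeff_sum_single (s : Finset ι) (i : ι) :
    (∑ j ∈ s, Finsupp.single j (1 : k)) i = if i ∈ s then 1 else 0 := by
  rw [Finsupp.finsetSum_apply]
  simp [Finsupp.single_apply]

theorem qd_prime (s : Finset ι) (hs : s.Nontrivial) : Prime (qd k s) := by
  have h : Irreducible (qd k s) := by
    rw [qd_eq]
    apply irreducible_sumSMulXSMulY
    · obtain ⟨a, ha, b, hb, hab⟩ := hs
      refine ⟨a, ?_, b, ?_, hab⟩
      · simp only [Finset.mem_coe] at ha
        simp [coeff_sum_single, ha]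
      · simp only [Finset.mem_coe] at hb
        simp [coeff_sum_single, hb]
    · intro r hr
      obtain ⟨a, ha, -⟩ := hs
      have := hr a
      simp only [Finset.mem_coe] at ha
      rw [coeff_sum_single, if_pos ha] at this
      exact isUnit_of_dvd_one this
  exact h.prime

/-! ### part 4a: polynomial lemma -/

theorem no_cube (h3 : (3 : k) ≠ 0) (u a c : k) (hu : u ≠ 0) (hc : c ≠ 0) (w : Polynomial k)
    (hw : w ^ 3 = Polynomial.C u * Polynomial.X ^ 6 + Polynomial.C a * Polynomial.X ^ 3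
      + Polynomial.C c) :
    False := by
  have hdeg : (Polynomial.C u * Polynomial.X ^ 6 + Polynomial.C a * Polynomial.X ^ 3
      + Polynomial.C c).natDegree = 6 := by
    compute_degree!
  have hw2 : w.natDegree = 2 := by
    have h1 : (w ^ 3).natDegree = 6 := by rw [hw, hdeg]
    rw [Polynomial.natDegree_pow] at h1
    omega
  have hform : w = Polynomial.C (w.coeff 2) * Polynomial.X ^ 2
      + Polynomial.C (w.coeff 1) * Polynomial.X + Polynomial.C (w.coeff 0) :=
    Polynomial.eq_quadratic_of_degree_le_two (by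
      rw [Polynomial.degree_le_iff_coeff_zero]
      intro m hm
      apply Polynomial.coeff_eq_zero_of_natDegree_lt
      rw [hw2]
      exact_mod_cast hm)
  set α := w.coeff 2
  set β := w.coeff 1
  set γ := w.coeff 0
  have hexp : w ^ 3 = Polynomial.C (α ^ 3) * Polynomial.X ^ 6
      + Polynomial.C (3 * α ^ 2 * β) * Polynomial.X ^ 5
      + Polynomial.C (3 * α ^ 2 * γ + 3 * α * β ^ 2) * Polynomial.X ^ 4
      + Polynomial.C (6 * α * β * γ + β ^ 3) * Polynomial.X ^ 3
      + Polynomial.C (3 * α * γ ^ 2 + 3 * β ^ 2 * γ) * Polynomial.X ^ 2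
      + Polynomial.C (3 * β * γ ^ 2) * Polynomial.X + Polynomial.C (γ ^ 3) := by
    rw [hform]
    simp only [map_mul, map_add, map_pow, map_ofNat]
    ring
  rw [hexp] at hw
  have h6 := congrArg (fun p => Polynomial.coeff p 6) hw
  have h5 := congrArg (fun p => Polynomial.coeff p 5) hw
  have h4 := congrArg (fun p => Polynomial.coeff p 4) hw
  have h0 := congrArg (fun p => Polynomial.coeff p 0) hw
  simp only [Polynomial.coeff_add, Polynomial.coeff_C_mul, Polynomial.coeff_X_pow,
    Polynomial.coeff_X, Polynomial.coeff_C] at h6 h5 h4 h0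
  norm_num at h6 h5 h4 h0
  have hα : α ≠ 0 := by
    intro h
    rw [h] at h6
    norm_num at h6
    exact hu h6.symm
  have hβ : β = 0 := by
    rcases h5 with (h | h) | h
    · exact absurd h h3
    · exact absurd h hα
    · exact h
  rw [hβ] at h4
  have hγ : γ = 0 := by
    have : 3 * α ^ 2 * γ = 0 := by linear_combination h4
    rcases mul_eq_zero.1 this with h | h
    · rcases mul_eq_zero.1 h with h | h
      · exact absurd h h3
      · exact absurd (pow_eq_zero_iff (by norm_num) |>.1 h) hα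
    · exact h
  rw [hγ] at h0
  apply hc
  rw [← h0]
  norm_num

/-! ### part 2: elimination of one variable -/

section elim

variable (s : Finset ι) (i0 : ι)

/-- The rational parametrisation of the quadric: `y_{i0} = - q / x_{i0}`. -/
noncomputable def tht (k : Type*) [Field k] (s : Finset ι) (i0 : ι) :
    MvPolynomial (ι ⊕ ι) k →ₐ[k] FractionRing (MvPolynomial (ι ⊕ ι) k) :=
  aeval (fun v => if v = Sum.inr i0 then
      -(algebraMap _ (FractionRing (MvPolynomial (ι ⊕ ι) k)) (qd k (s.erase i0)))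
        / algebraMap _ _ (X (Sum.inl i0) : MvPolynomial (ι ⊕ ι) k)
    else algebraMap _ _ (X v : MvPolynomial (ι ⊕ ι) k))

theorem tht_X_ne (v : ι ⊕ ι) (hv : v ≠ Sum.inr i0) :
    tht k s i0 (X v) = algebraMap _ _ (X v : MvPolynomial (ι ⊕ ι) k) := by
  unfold tht
  rw [aeval_X, if_neg hv]

theorem tht_X_eq :
    tht k s i0 (X (Sum.inr i0)) =
      -(algebraMap _ (FractionRing (MvPolynomial (ι ⊕ ι) k)) (qd k (s.erase i0)))
        / algebraMap _ _ (X (Sum.inl i0) : MvPolynomial (ι ⊕ ι) k) := by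
  unfold tht
  rw [aeval_X, if_pos rfl]

theorem tht_of_supported (f : MvPolynomial (ι ⊕ ι) k)
    (hf : f ∈ supported k ({Sum.inr i0}ᶜ : Set (ι ⊕ ι))) :
    tht k s i0 f = algebraMap _ _ f := by
  have h : supported k ({Sum.inr i0}ᶜ : Set (ι ⊕ ι)) ≤
      AlgHom.equalizer (tht k s i0)
        (IsScalarTower.toAlgHom k (MvPolynomial (ι ⊕ ι) k)
          (FractionRing (MvPolynomial (ι ⊕ ι) k))) := by
    unfold supported
    apply AlgHom.adjoin_le_equalizer
    rintro _ ⟨v, hv, rfl⟩
    rw [tht_X_ne s i0 v (by simpa using hv)]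
    rfl
  exact h hf

theorem X_ne_zero' (v : ι ⊕ ι) :
    algebraMap _ (FractionRing (MvPolynomial (ι ⊕ ι) k)) (X v : MvPolynomial (ι ⊕ ι) k) ≠ 0 := by
  intro h
  have := (IsFractionRing.injective (MvPolynomial (ι ⊕ ι) k)
    (FractionRing (MvPolynomial (ι ⊕ ι) k))) (h.trans (map_zero _).symm)
  exact X_ne_zero v this

theorem tht_qd (t : Finset ι) (ht : i0 ∉ t) :
    tht k s i0 (qd k t) = algebraMap _ _ (qd k t) := by
  unfold qd
  rw [map_sum, map_sum]
  refine Finset.sum_congr rfl fun i hi => ?_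
  have h : i ≠ i0 := fun h => ht (h ▸ hi)
  rw [map_mul, map_mul, tht_X_ne s i0 _ (by simp), tht_X_ne s i0 _ (by simpa using h)]

theorem qd_split (h0 : i0 ∈ s) :
    qd k s = X (Sum.inl i0) * X (Sum.inr i0) + qd k (s.erase i0) := by
  unfold qd
  rw [← Finset.add_sum_erase s _ h0]

theorem cb_split (c : ι ⊕ ι → k) (h0 : i0 ∈ s) :
    cb c s = (C (c (Sum.inl i0)) * X (Sum.inl i0) ^ 3
      + C (c (Sum.inr i0)) * X (Sum.inr i0) ^ 3) + cb c (s.erase i0) := by
  unfold cb
  rw [← Finset.add_sum_erase s _ h0]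

theorem tht_qd_zero (h0 : i0 ∈ s) : tht k s i0 (qd k s) = 0 := by
  rw [qd_split s i0 h0, map_add, map_mul, tht_X_ne s i0 _ (by simp), tht_X_eq,
    tht_qd s i0 _ (by simp)]
  have := X_ne_zero' (k := k) (Sum.inl i0 : ι ⊕ ι)
  field_simp
  ring

theorem tht_cb (c : ι ⊕ ι → k) (t : Finset ι) (ht : i0 ∉ t) :
    tht k s i0 (cb c t) = algebraMap _ _ (cb c t) := by
  unfold cb
  rw [map_sum, map_sum]
  refine Finset.sum_congr rfl fun i hi => ?_
  have h : i ≠ i0 := fun h => ht (h ▸ hi)
  rw [map_add, map_add, map_mul, map_mul, map_mul, map_mul, map_pow, map_pow, map_pow, map_pow,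
    tht_X_ne s i0 _ (by simp), tht_X_ne s i0 _ (by simpa using h), MvPolynomial.algHom_C,
    MvPolynomial.algHom_C]
  rfl

/-- clearing the eliminated variable -/
theorem clear (h0 : i0 ∈ s) (f : MvPolynomial (ι ⊕ ι) k) :
    ∃ m : ℕ, ∃ g ∈ supported k ({Sum.inr i0}ᶜ : Set (ι ⊕ ι)),
      X (Sum.inl i0) ^ m * f - g ∈ Ideal.span {qd k s} := by
  induction f using MvPolynomial.induction_on with
  | C a => exact ⟨0, C a, Subalgebra.algebraMap_mem _ a, by simp⟩
  | add f g hf hg =>
    obtain ⟨m, f', hf', hm⟩ := hf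
    obtain ⟨n, g', hg', hn⟩ := hg
    have hx : (X (Sum.inl i0) : MvPolynomial (ι ⊕ ι) k) ∈
        supported k ({Sum.inr i0}ᶜ : Set (ι ⊕ ι)) := by
      rw [X_mem_supported]; simp
    refine ⟨m + n, X (Sum.inl i0) ^ n * f' + X (Sum.inl i0) ^ m * g', ?_, ?_⟩
    · exact add_mem (mul_mem (pow_mem hx _) hf') (mul_mem (pow_mem hx _) hg')
    · have e : X (Sum.inl i0) ^ (m + n) * (f + g)
          - (X (Sum.inl i0) ^ n * f' + X (Sum.inl i0) ^ m * g')
          = X (Sum.inl i0) ^ n * (X (Sum.inl i0) ^ m * f - f')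
            + X (Sum.inl i0) ^ m * (X (Sum.inl i0) ^ n * g - g') := by ring
      rw [e]
      exact add_mem (Ideal.mul_mem_left _ _ hm) (Ideal.mul_mem_left _ _ hn)
  | mul_X f v hf =>
    obtain ⟨m, f', hf', hm⟩ := hf
    by_cases hv : v = Sum.inr i0
    · subst hv
      refine ⟨m + 1, -(qd k (s.erase i0)) * f', ?_, ?_⟩
      · refine mul_mem (neg_mem ?_) hf'
        unfold qd
        refine sum_mem fun i hi => mul_mem ?_ ?_
        · rw [X_mem_supported]; simp
        · rw [X_mem_supported]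
          simpa using (Finset.mem_erase.1 hi).1
      · have e : X (Sum.inl i0) ^ (m + 1) * (f * X (Sum.inr i0)) - -(qd k (s.erase i0)) * f'
            = (X (Sum.inl i0) * X (Sum.inr i0)) * (X (Sum.inl i0) ^ m * f - f')
              + f' * qd k s := by
          rw [qd_split s i0 h0]; ring
        rw [e]
        exact add_mem (Ideal.mul_mem_left _ _ hm)
          (Ideal.mul_mem_left _ _ (Ideal.mem_span_singleton_self _))
    · refine ⟨m, f' * X v, mul_mem hf' ?_, ?_⟩
      · rw [X_mem_supported]; simpa using hv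
      · have e : X (Sum.inl i0) ^ m * (f * X v) - f' * X v
            = X v * (X (Sum.inl i0) ^ m * f - f') := by ring
        rw [e]
        exact Ideal.mul_mem_left _ _ hm

/-- a linear functional separating: evaluation at a coordinate point -/
theorem X_not_mem_span_qd (t : Finset ι) (v : ι ⊕ ι) :
    (X v : MvPolynomial (ι ⊕ ι) k) ∉ Ideal.span {qd k t} := by
  intro h
  obtain ⟨a, ha⟩ := Ideal.mem_span_singleton'.1 h
  have h1 := congrArg (eval (fun w => if w = v then (1 : k) else 0)) ha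
  rw [map_mul, eval_X, if_pos rfl] at h1
  have h2 : eval (fun w => if w = v then (1 : k) else 0) (qd k t) = 0 := by
    unfold qd
    rw [map_sum]
    refine Finset.sum_eq_zero fun i _ => ?_
    rw [map_mul, eval_X, eval_X]
    rcases v with v | v
    · simp
    · simp
  rw [h2, mul_zero] at h1
  exact zero_ne_one h1

theorem ker_tht (h0 : i0 ∈ s) (hs : s.Nontrivial) (f : MvPolynomial (ι ⊕ ι) k)
    (hf : tht k s i0 f = 0) : f ∈ Ideal.span {qd k s} := by
  obtain ⟨m, g, hg, hm⟩ := clear s i0 h0 f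
  have hpr : (Ideal.span {qd k s} : Ideal (MvPolynomial (ι ⊕ ι) k)).IsPrime :=
    (Ideal.span_singleton_prime (qd_prime s hs).ne_zero).2 (qd_prime s hs)
  have h1 : tht k s i0 (X (Sum.inl i0) ^ m * f - g) = 0 := by
    obtain ⟨a, ha⟩ := Ideal.mem_span_singleton'.1 hm
    rw [← ha, map_mul, tht_qd_zero s i0 h0, mul_zero]
  rw [map_sub, map_mul, hf, mul_zero, zero_sub, neg_eq_zero, tht_of_supported s i0 g hg] at h1
  have hg0 : g = 0 := (IsFractionRing.injective (MvPolynomial (ι ⊕ ι) k)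
    (FractionRing (MvPolynomial (ι ⊕ ι) k))) (h1.trans (map_zero _).symm)
  rw [hg0, sub_zero] at hm
  rcases hpr.mem_or_mem hm with h | h
  · exact absurd (hpr.mem_of_pow_mem _ h) (X_not_mem_span_qd s _)
  · exact h

end elim

/-! ### part 3: division by the monic cubic -/

theorem divide (i2 : ι) (h : MvPolynomial (ι ⊕ ι) k)
    (hh : h ∈ supported k ({Sum.inl i2}ᶜ : Set (ι ⊕ ι))) (f : MvPolynomial (ι ⊕ ι) k) :
    ∃ a ∈ supported k ({Sum.inl i2}ᶜ : Set (ι ⊕ ι)),
    ∃ b ∈ supported k ({Sum.inl i2}ᶜ : Set (ι ⊕ ι)),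
    ∃ c ∈ supported k ({Sum.inl i2}ᶜ : Set (ι ⊕ ι)),
      f - (a + b * X (Sum.inl i2) + c * X (Sum.inl i2) ^ 2) ∈
        Ideal.span {X (Sum.inl i2) ^ 3 + h} := by
  induction f using MvPolynomial.induction_on with
  | C a =>
    exact ⟨C a, Subalgebra.algebraMap_mem _ a, 0, zero_mem _, 0, zero_mem _, by simp⟩
  | add f g hf hg =>
    obtain ⟨a, ha, b, hb, c, hc, hm⟩ := hf
    obtain ⟨a', ha', b', hb', c', hc', hm'⟩ := hg
    refine ⟨a + a', add_mem ha ha', b + b', add_mem hb hb', c + c', add_mem hc hc', ?_⟩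
    have e : f + g - (a + a' + (b + b') * X (Sum.inl i2) + (c + c') * X (Sum.inl i2) ^ 2)
      = (f - (a + b * X (Sum.inl i2) + c * X (Sum.inl i2) ^ 2))
        + (g - (a' + b' * X (Sum.inl i2) + c' * X (Sum.inl i2) ^ 2)) := by ring
    rw [e]
    exact add_mem hm hm'
  | mul_X f v hf =>
    obtain ⟨a, ha, b, hb, c, hc, hm⟩ := hf
    by_cases hv : v = Sum.inl i2
    · subst hv
      refine ⟨-(c * h), neg_mem (mul_mem hc hh), a, ha, b, hb, ?_⟩
      have e : f * X (Sum.inl i2) - (-(c * h) + a * X (Sum.inl i2) + b * X (Sum.inl i2) ^ 2)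
        = X (Sum.inl i2) * (f - (a + b * X (Sum.inl i2) + c * X (Sum.inl i2) ^ 2))
          + c * (X (Sum.inl i2) ^ 3 + h) := by ring
      rw [e]
      exact add_mem (Ideal.mul_mem_left _ _ hm)
        (Ideal.mul_mem_left _ _ (Ideal.mem_span_singleton_self _))
    · have hx : (X v : MvPolynomial (ι ⊕ ι) k) ∈
          supported k ({Sum.inl i2}ᶜ : Set (ι ⊕ ι)) := by
        rw [X_mem_supported]; simpa using hv
      refine ⟨a * X v, mul_mem ha hx, b * X v, mul_mem hb hx, c * X v, mul_mem hc hx, ?_⟩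
      have e : f * X v - (a * X v + b * X v * X (Sum.inl i2) + c * X v * X (Sum.inl i2) ^ 2)
        = X v * (f - (a + b * X (Sum.inl i2) + c * X (Sum.inl i2) ^ 2)) := by ring
      rw [e]
      exact Ideal.mul_mem_left _ _ hm

/-- small polynomials are not divisible by a monic cubic -/
theorem quad_dvd {L : Type*} [Field L] (h a b c : L)
    (hd : (Polynomial.X ^ 3 + Polynomial.C h) ∣
      (Polynomial.C a + Polynomial.C b * Polynomial.X + Polynomial.C c * Polynomial.X ^ 2)) :
    a = 0 ∧ b = 0 ∧ c = 0 := by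
  have hdeg : (Polynomial.C a + Polynomial.C b * Polynomial.X
      + Polynomial.C c * Polynomial.X ^ 2).degree < (Polynomial.X ^ 3 + Polynomial.C h).degree := by
    have h1 : (Polynomial.X ^ 3 + Polynomial.C h).degree = 3 := by
      rw [Polynomial.degree_X_pow_add_C (by norm_num)]
      norm_num
    rw [h1]
    have h2 : (Polynomial.C a + Polynomial.C b * Polynomial.X
      + Polynomial.C c * Polynomial.X ^ 2).degree ≤ 2 := by compute_degree
    exact lt_of_le_of_lt h2 (by norm_num)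
  have h0 := Polynomial.eq_zero_of_dvd_of_degree_lt hd hdeg
  have e0 := congrArg (fun p => Polynomial.coeff p 0) h0
  have e1 := congrArg (fun p => Polynomial.coeff p 1) h0
  have e2 := congrArg (fun p => Polynomial.coeff p 2) h0
  simp [Polynomial.coeff_X, Polynomial.coeff_C] at e0 e1 e2
  exact ⟨e0, e1, e2⟩

section ker

variable (s : Finset ι) (i0 i2 : ι) (h : MvPolynomial (ι ⊕ ι) k)

/-- The map to the (field) `L[x]/(x^3 + theta h)`. -/
noncomputable def phi : MvPolynomial (ι ⊕ ι) k →ₐ[k]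
    AdjoinRoot (Polynomial.X ^ 3 + Polynomial.C (tht k s i0 h)) :=
  aeval (fun v => if v = Sum.inl i2 then
      AdjoinRoot.root (Polynomial.X ^ 3 + Polynomial.C (tht k s i0 h))
    else AdjoinRoot.of (Polynomial.X ^ 3 + Polynomial.C (tht k s i0 h)) (tht k s i0 (X v)))

theorem phi_of_supported (f : MvPolynomial (ι ⊕ ι) k)
    (hf : f ∈ supported k ({Sum.inl i2}ᶜ : Set (ι ⊕ ι))) :
    phi s i0 i2 h f = AdjoinRoot.of _ (tht k s i0 f) := by
  have h : supported k ({Sum.inl i2}ᶜ : Set (ι ⊕ ι)) ≤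
      AlgHom.equalizer (phi s i0 i2 h)
        ((IsScalarTower.toAlgHom k (FractionRing (MvPolynomial (ι ⊕ ι) k))
          (AdjoinRoot (Polynomial.X ^ 3 + Polynomial.C (tht k s i0 h)))).comp
          (tht k s i0)) := by
    unfold supported
    apply AlgHom.adjoin_le_equalizer
    rintro _ ⟨v, hv, rfl⟩
    have hv' : v ≠ Sum.inl i2 := by simpa using hv
    unfold phi
    rw [aeval_X, if_neg hv']
    rfl
  exact h hf

theorem phi_X_eq : phi s i0 i2 h (X (Sum.inl i2)) = AdjoinRoot.root _ := by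
  unfold phi
  rw [aeval_X, if_pos rfl]

theorem phi_cubic (hh : h ∈ supported k ({Sum.inl i2}ᶜ : Set (ι ⊕ ι))) :
    phi s i0 i2 h (X (Sum.inl i2) ^ 3 + h) = 0 := by
  rw [map_add, map_pow, phi_X_eq, phi_of_supported s i0 i2 h h hh]
  have := AdjoinRoot.mk_self (f := Polynomial.X ^ 3 + Polynomial.C (tht k s i0 h))
  rw [map_add, map_pow, AdjoinRoot.mk_X, AdjoinRoot.mk_C] at this
  exact this

theorem qd_mem_supported (t : Finset ι) (ht : i2 ∉ t) :
    qd k t ∈ supported k ({Sum.inl i2}ᶜ : Set (ι ⊕ ι)) := by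
  unfold qd
  refine sum_mem fun i hi => mul_mem ?_ ?_
  · rw [X_mem_supported]
    have : i ≠ i2 := fun e => ht (e ▸ hi)
    simpa using this
  · rw [X_mem_supported]; simp

theorem cb_mem_supported (c : ι ⊕ ι → k) (t : Finset ι) (ht : i2 ∉ t) :
    cb c t ∈ supported k ({Sum.inl i2}ᶜ : Set (ι ⊕ ι)) := by
  unfold cb
  refine sum_mem fun i hi => add_mem (mul_mem ?_ (pow_mem ?_ _)) (mul_mem ?_ (pow_mem ?_ _))
  · exact Subalgebra.algebraMap_mem _ _
  · rw [X_mem_supported]
    have : i ≠ i2 := fun e => ht (e ▸ hi)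
    simpa using this
  · exact Subalgebra.algebraMap_mem _ _
  · rw [X_mem_supported]; simp

theorem ker_phi (h0 : i0 ∈ s) (h2 : i2 ∉ s) (hs : s.Nontrivial)
    (hh : h ∈ supported k ({Sum.inl i2}ᶜ : Set (ι ⊕ ι))) (f : MvPolynomial (ι ⊕ ι) k) :
    phi s i0 i2 h f = 0 ↔ f ∈ Ideal.span {qd k s, X (Sum.inl i2) ^ 3 + h} := by
  constructor
  · intro hf
    obtain ⟨a, ha, b, hb, c, hc, hm⟩ := divide i2 h hh f
    have h1 : phi s i0 i2 h (f - (a + b * X (Sum.inl i2) + c * X (Sum.inl i2) ^ 2)) = 0 := by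
      obtain ⟨u, hu⟩ := Ideal.mem_span_singleton'.1 hm
      rw [← hu, map_mul, phi_cubic s i0 i2 h hh, mul_zero]
    rw [map_sub, hf, zero_sub, neg_eq_zero, map_add, map_add, map_mul, map_mul, map_pow,
      phi_X_eq, phi_of_supported s i0 i2 h a ha, phi_of_supported s i0 i2 h b hb,
      phi_of_supported s i0 i2 h c hc] at h1
    have h3 : AdjoinRoot.mk (Polynomial.X ^ 3 + Polynomial.C (tht k s i0 h))
        (Polynomial.C (tht k s i0 a) + Polynomial.C (tht k s i0 b) * Polynomial.X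
          + Polynomial.C (tht k s i0 c) * Polynomial.X ^ 2) = 0 := by
      rw [map_add, map_add, map_mul, map_mul, map_pow, AdjoinRoot.mk_X, AdjoinRoot.mk_C,
        AdjoinRoot.mk_C, AdjoinRoot.mk_C]
      exact h1
    rw [AdjoinRoot.mk_eq_zero] at h3
    obtain ⟨ea, eb, ec⟩ := quad_dvd _ _ _ _ h3
    have ia := ker_tht s i0 h0 hs a ea
    have ib := ker_tht s i0 h0 hs b eb
    have ic := ker_tht s i0 h0 hs c ec
    have l1 : Ideal.span {qd k s} ≤ Ideal.span {qd k s, X (Sum.inl i2) ^ 3 + h} :=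
      Ideal.span_mono (by simp)
    have l2 : Ideal.span {X (Sum.inl i2) ^ 3 + h} ≤
        Ideal.span {qd k s, X (Sum.inl i2) ^ 3 + h} :=
      Ideal.span_mono (by simp)
    have e : f = (f - (a + b * X (Sum.inl i2) + c * X (Sum.inl i2) ^ 2))
        + (a + X (Sum.inl i2) * b + X (Sum.inl i2) ^ 2 * c) := by ring
    rw [e]
    exact add_mem (l2 hm) (add_mem (add_mem (l1 ia) (Ideal.mul_mem_left _ _ (l1 ib)))
      (Ideal.mul_mem_left _ _ (l1 ic)))
  · intro hf
    obtain ⟨a, b, hab⟩ := Ideal.mem_span_pair.1 hf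
    rw [← hab, map_add, map_mul, map_mul, phi_cubic s i0 i2 h hh,
      phi_of_supported s i0 i2 h _ (qd_mem_supported i2 s h2), tht_qd_zero s i0 h0,
      map_zero, mul_zero, mul_zero, add_zero]

end ker

/-! ### part 4: the cubic is irreducible -/

theorem cubic_irreducible (s : Finset ι) (i0 i1 : ι) (h0 : i0 ∈ s) (h1 : i1 ∈ s)
    (h01 : i0 ≠ i1) (c : ι ⊕ ι → k) (hc : ∀ i, c i ≠ 0) (h3 : (3 : k) ≠ 0) (κ : k) (hκ : κ ≠ 0) :
    Irreducible (Polynomial.X ^ 3 + Polynomial.C (tht k s i0 (C κ * cb c s))) := by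
  have e : (Polynomial.X ^ 3 + Polynomial.C (tht k s i0 (C κ * cb c s)))
      = Polynomial.X ^ 3 - Polynomial.C (-(tht k s i0 (C κ * cb c s))) := by
    rw [map_neg, sub_neg_eq_add]
  rw [e]
  refine X_pow_sub_C_irreducible_of_prime Nat.prime_three fun b hb => ?_
  set x := algebraMap (MvPolynomial (ι ⊕ ι) k) (FractionRing (MvPolynomial (ι ⊕ ι) k))
    (X (Sum.inl i0)) with hx
  have hx0 : x ≠ 0 := X_ne_zero' _
  have hth : x ^ 3 * tht k s i0 (C κ * cb c s) = algebraMap _ _ (C κ * (C (c (Sum.inl i0))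
      * X (Sum.inl i0) ^ 6 - C (c (Sum.inr i0)) * qd k (s.erase i0) ^ 3
        + X (Sum.inl i0) ^ 3 * cb c (s.erase i0))) := by
    rw [cb_split s i0 c h0, map_mul, map_add, map_add, map_mul, map_mul, map_pow, map_pow,
      tht_X_ne s i0 _ (by simp), tht_X_eq, tht_cb s i0 c _ (by simp), MvPolynomial.algHom_C,
      MvPolynomial.algHom_C, MvPolynomial.algHom_C,
      map_mul, map_add, map_sub, map_mul, map_mul, map_mul, map_pow, map_pow, map_pow, ← hx]
    have h1 : ∀ a : k, (algebraMap k (FractionRing (MvPolynomial (ι ⊕ ι) k))) a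
      = algebraMap (MvPolynomial (ι ⊕ ι) k) _ (C a) := fun _ => rfl
    rw [h1, h1, h1]
    field_simp
    ring
  have hint : (b * x) ^ 3 = algebraMap _ _ (-(C κ * (C (c (Sum.inl i0))
      * X (Sum.inl i0) ^ 6 - C (c (Sum.inr i0)) * qd k (s.erase i0) ^ 3
        + X (Sum.inl i0) ^ 3 * cb c (s.erase i0)))) := by
    rw [map_neg, ← hth, mul_pow, hb]
    ring
  obtain ⟨w, hw⟩ := IsIntegrallyClosed.exists_algebraMap_eq_of_isIntegral_pow
    (R := MvPolynomial (ι ⊕ ι) k) (K := FractionRing (MvPolynomial (ι ⊕ ι) k))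
    (x := b * x) (n := 3) (by norm_num) (by rw [hint]; exact isIntegral_algebraMap)
  rw [← hw, ← map_pow] at hint
  have hw3 := IsFractionRing.injective (MvPolynomial (ι ⊕ ι) k)
    (FractionRing (MvPolynomial (ι ⊕ ι) k)) hint
  let ev : MvPolynomial (ι ⊕ ι) k →ₐ[k] Polynomial k :=
    aeval (fun v => if v = Sum.inl i0 then Polynomial.X
      else if v = Sum.inl i1 ∨ v = Sum.inr i1 then 1 else 0)
  have hev0 : ev (X (Sum.inl i0)) = Polynomial.X := by
    simp [ev]
  have hevq : ev (qd k (s.erase i0)) = 1 := by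
    unfold qd
    rw [map_sum, Finset.sum_eq_single i1]
    · simp [ev, h01.symm]
    · intro j hj hj1
      simp [ev, hj1]
    · intro hh
      exact absurd (Finset.mem_erase.2 ⟨h01.symm, h1⟩) hh
  have hevc : ev (cb c (s.erase i0)) = Polynomial.C (c (Sum.inl i1) + c (Sum.inr i1)) := by
    unfold cb
    rw [map_sum, Finset.sum_eq_single i1]
    · simp [ev, h01.symm]
    · intro j hj hj1
      have : j ≠ i0 := (Finset.mem_erase.1 hj).1
      simp [ev, hj1, this]
    · intro hh
      exact absurd (Finset.mem_erase.2 ⟨h01.symm, h1⟩) hh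
  have := congrArg ev hw3
  rw [map_pow, map_neg, map_mul, map_add, map_sub, map_mul, map_mul, map_mul, map_pow, map_pow,
    map_pow, hev0, hevq, hevc, MvPolynomial.algHom_C, MvPolynomial.algHom_C,
    MvPolynomial.algHom_C] at this
  refine no_cube h3 (-(κ * c (Sum.inl i0))) (-(κ * (c (Sum.inl i1) + c (Sum.inr i1))))
    (κ * c (Sum.inr i0)) (neg_ne_zero.2 (mul_ne_zero hκ (hc _))) (mul_ne_zero hκ (hc _))
    (ev w) ?_
  rw [this]
  have h1 : ∀ a : k, (algebraMap k (Polynomial k)) a = Polynomial.C a := fun _ => rfl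
  rw [h1, h1, h1]
  simp only [map_neg, map_mul, map_add]
  ring

/-! ### part 5: graded descent -/

section descent

variable {A σ : Type*} [CommRing A] [SetLike σ A] [AddSubmonoidClass σ A] (𝒜 : ℕ → σ)
  [GradedRing 𝒜]

theorem cut_lemma (I : Ideal A) (hI : I.IsHomogeneous 𝒜) (x : A) (hx : x ∈ 𝒜 1)
    (p : ℕ) (a : A) (ha : a ∈ 𝒜 p) (h : a ∈ I ⊔ Ideal.span {x}) :
    a ∈ I ∨ ∃ p', p = p' + 1 ∧ ∃ a' ∈ 𝒜 p', a - x * a' ∈ I := by
  obtain ⟨i, hi, z, hz, rfl⟩ := Submodule.mem_sup.1 h
  obtain ⟨a', rfl⟩ := Ideal.mem_span_singleton'.1 hz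
  have hd : (i + a' * x) = (DirectSum.decompose 𝒜 i p : A)
      + (DirectSum.decompose 𝒜 (x * a') p : A) := by
    have e1 : (DirectSum.decompose 𝒜 (i + a' * x) p : A) = i + a' * x :=
      DirectSum.decompose_of_mem_same 𝒜 ha
    rw [← e1, mul_comm a' x, DirectSum.decompose_add, DirectSum.add_apply]
    rfl
  have hip : (DirectSum.decompose 𝒜 i p : A) ∈ I := hI p hi
  rcases p with _ | p'
  · left
    rw [DirectSum.coe_decompose_mul_of_left_mem_of_not_le 𝒜 hx (by omega), add_zero] at hd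
    rw [hd]; exact hip
  · right
    refine ⟨p', rfl, (DirectSum.decompose 𝒜 a' p' : A), SetLike.coe_mem _, ?_⟩
    rw [DirectSum.coe_decompose_mul_of_left_mem_of_le 𝒜 hx (by omega)] at hd
    have : p' + 1 - 1 = p' := rfl
    rw [this] at hd
    rw [hd, add_sub_cancel_right]
    exact hip

theorem isPrime_of_cut (I : Ideal A) (hI : I.IsHomogeneous 𝒜) (x : A) (hx : x ∈ 𝒜 1)
    (hreg : ∀ h, x * h ∈ I → h ∈ I) (hP : (I ⊔ Ideal.span {x}).IsPrime) : I.IsPrime := by
  have key : ∀ n p q : ℕ, p + q = n → ∀ a ∈ 𝒜 p, ∀ b ∈ 𝒜 q, a * b ∈ I → a ∈ I ∨ b ∈ I := by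
    intro n
    induction n using Nat.strong_induction_on with
    | _ n ih =>
      intro p q hpq a ha b hb hab
      rcases hP.mem_or_mem ((le_sup_left : I ≤ I ⊔ Ideal.span {x}) hab) with h | h
      · rcases cut_lemma 𝒜 I hI x hx p a ha h with h | ⟨p', rfl, a', ha', h'⟩
        · exact Or.inl h
        · have h1 : x * (a' * b) ∈ I := by
            have e : x * (a' * b) = a * b - (a - x * a') * b := by ring
            rw [e]
            exact sub_mem hab (Ideal.mul_mem_right _ _ h')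
          rcases ih (p' + q) (by omega) p' q rfl a' ha' b hb (hreg _ h1) with h2 | h2
          · left
            have e : a = (a - x * a') + x * a' := by ring
            rw [e]
            exact add_mem h' (Ideal.mul_mem_left _ _ h2)
          · exact Or.inr h2
      · rcases cut_lemma 𝒜 I hI x hx q b hb h with h | ⟨q', rfl, b', hb', h'⟩
        · exact Or.inr h
        · have h1 : x * (a * b') ∈ I := by
            have e : x * (a * b') = a * b - a * (b - x * b') := by ring
            rw [e]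
            exact sub_mem hab (Ideal.mul_mem_left _ _ h')
          rcases ih (p + q') (by omega) p q' rfl a ha b' hb' (hreg _ h1) with h2 | h2
          · exact Or.inl h2
          · right
            have e : b = (b - x * b') + x * b' := by ring
            rw [e]
            exact add_mem h' (Ideal.mul_mem_left _ _ h2)
  refine hI.isPrime_of_homogeneous_mem_or_mem ?_ ?_
  · intro h
    exact hP.ne_top (by rw [h, top_sup_eq])
  · rintro a b ⟨p, ha⟩ ⟨q, hb⟩ hab
    exact key _ p q rfl a ha b hb hab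

end descent

/-! ### part 6: assembly -/

section final

attribute [local instance] MvPolynomial.gradedAlgebra

variable (i2 : ι)

/-- kill the variable `y_{i2}` -/
noncomputable def kl (k : Type*) [Field k] (i2 : ι) :
    MvPolynomial (ι ⊕ ι) k →ₐ[k] MvPolynomial (ι ⊕ ι) k :=
  aeval (fun v => if v = Sum.inr i2 then 0 else X v)

theorem kl_sub_mem (f : MvPolynomial (ι ⊕ ι) k) :
    kl k i2 f - f ∈ Ideal.span {(X (Sum.inr i2) : MvPolynomial (ι ⊕ ι) k)} := by
  induction f using MvPolynomial.induction_on with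
  | C a => rw [MvPolynomial.algHom_C]; simp
  | add f g hf hg =>
    have e : kl k i2 (f + g) - (f + g) = (kl k i2 f - f) + (kl k i2 g - g) := by
      rw [map_add]; ring
    rw [e]; exact add_mem hf hg
  | mul_X f v hf =>
    by_cases hv : v = Sum.inr i2
    · subst hv
      have e : kl k i2 (f * X (Sum.inr i2)) - f * X (Sum.inr i2)
          = (-f) * X (Sum.inr i2) := by
        rw [map_mul]
        have : kl k i2 (X (Sum.inr i2)) = 0 := by simp [kl]
        rw [this]; ring
      rw [e]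
      exact Ideal.mul_mem_left _ _ (Ideal.mem_span_singleton_self _)
    · have e : kl k i2 (f * X v) - f * X v = X v * (kl k i2 f - f) := by
        rw [map_mul]
        have : kl k i2 (X v) = X v := by simp [kl, hv]
        rw [this]; ring
      rw [e]
      exact Ideal.mul_mem_left _ _ hf

theorem comap_map_kl (I : Ideal (MvPolynomial (ι ⊕ ι) k)) :
    (I.map (kl k i2)).comap (kl k i2) = I ⊔ Ideal.span {X (Sum.inr i2)} := by
  have hle : I.map (kl k i2) ≤ I ⊔ Ideal.span {X (Sum.inr i2)} := by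
    rw [Ideal.map_le_iff_le_comap]
    intro f hf
    rw [Ideal.mem_comap]
    have e : kl k i2 f = f + (kl k i2 f - f) := by ring
    rw [e]
    exact add_mem (Ideal.mem_sup_left hf) (Ideal.mem_sup_right (kl_sub_mem i2 f))
  apply le_antisymm
  · intro f hf
    rw [Ideal.mem_comap] at hf
    have e : f = kl k i2 f - (kl k i2 f - f) := by ring
    rw [e]
    exact sub_mem (hle hf) (Ideal.mem_sup_right (kl_sub_mem i2 f))
  · apply sup_le
    · exact Ideal.le_comap_map
    · rw [Ideal.span_le, Set.singleton_subset_iff]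
      have h0 : kl k i2 (X (Sum.inr i2)) = 0 := by simp [kl]
      rw [SetLike.mem_coe, Ideal.mem_comap, h0]
      exact zero_mem _

theorem kl_qd (s : Finset ι) : kl k i2 (qd k s) = qd k (s.erase i2) := by
  unfold qd
  rw [map_sum]
  by_cases h : i2 ∈ s
  · rw [← Finset.add_sum_erase s _ h, map_mul]
    have : kl k i2 (X (Sum.inr i2)) = 0 := by simp [kl]
    rw [this, mul_zero, zero_add]
    refine Finset.sum_congr rfl fun i hi => ?_
    have hi' : i ≠ i2 := (Finset.mem_erase.1 hi).1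
    simp [kl, hi']
  · rw [Finset.erase_eq_of_notMem h]
    refine Finset.sum_congr rfl fun i hi => ?_
    have hi' : i ≠ i2 := fun e => h (e ▸ hi)
    simp [kl, hi']

theorem kl_cb (c : ι ⊕ ι → k) (s : Finset ι) (h : i2 ∈ s) :
    kl k i2 (cb c s) = C (c (Sum.inl i2)) * X (Sum.inl i2) ^ 3 + cb c (s.erase i2) := by
  unfold cb
  rw [← Finset.add_sum_erase s _ h, map_add, map_add, map_mul, map_mul, map_pow, map_pow,
    map_sum, MvPolynomial.algHom_C]
  have h1 : kl k i2 (X (Sum.inr i2)) = 0 := by simp [kl]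
  have h2 : kl k i2 (X (Sum.inl i2)) = X (Sum.inl i2) := by simp [kl]
  rw [h1, h2]
  have h3 : ∑ i ∈ s.erase i2, kl k i2 (C (c (Sum.inl i)) * X (Sum.inl i) ^ 3
        + C (c (Sum.inr i)) * X (Sum.inr i) ^ 3)
      = ∑ i ∈ s.erase i2, (C (c (Sum.inl i)) * X (Sum.inl i) ^ 3
        + C (c (Sum.inr i)) * X (Sum.inr i) ^ 3) := by
    refine Finset.sum_congr rfl fun i hi => ?_
    have hi' : i ≠ i2 := (Finset.mem_erase.1 hi).1
    simp [kl, hi']
  rw [h3]
  have h4 : (algebraMap k (MvPolynomial (ι ⊕ ι) k)) (c (Sum.inl i2)) = C (c (Sum.inl i2)) := rfl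
  rw [h4]
  ring

theorem qd_homogeneous (s : Finset ι) : (qd k s).IsHomogeneous 2 := by
  unfold qd
  refine IsHomogeneous.sum _ _ _ fun i _ => ?_
  exact (isHomogeneous_X _ _).mul (isHomogeneous_X _ _)

theorem cb_homogeneous (c : ι ⊕ ι → k) (s : Finset ι) : (cb c s).IsHomogeneous 3 := by
  unfold cb
  refine IsHomogeneous.sum _ _ _ fun i _ => IsHomogeneous.add ?_ ?_
  · have h := (isHomogeneous_C (ι ⊕ ι) (c (Sum.inl i))).mul
      ((isHomogeneous_X k (Sum.inl i : ι ⊕ ι)).pow 3)
    simpa using h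
  · have h := (isHomogeneous_C (ι ⊕ ι) (c (Sum.inr i))).mul
      ((isHomogeneous_X k (Sum.inr i : ι ⊕ ι)).pow 3)
    simpa using h

/-- The coordinate ring `k[x_i, y_i] / (Q, F)` is a domain. -/
theorem span_isPrime [Fintype ι] (c : ι ⊕ ι → k) (hc : ∀ i, c i ≠ 0) (h3 : (3 : k) ≠ 0)
    (hcard : 3 ≤ Fintype.card ι) :
    (Ideal.span {qd k Finset.univ, cb c Finset.univ} :
      Ideal (MvPolynomial (ι ⊕ ι) k)).IsPrime := by
  obtain ⟨i0, i1, i2, h01, h02, h12⟩ : ∃ i0 i1 i2 : ι, i0 ≠ i1 ∧ i0 ≠ i2 ∧ i1 ≠ i2 := by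
    have := Fintype.two_lt_card_iff.1 (by omega : 2 < Fintype.card ι)
    obtain ⟨a, b, c, hab, hac, hbc⟩ := this
    exact ⟨a, b, c, hab, hac, hbc⟩
  have hu : (Finset.univ : Finset ι).Nontrivial := ⟨i0, by simp, i1, by simp, h01⟩
  set s : Finset ι := Finset.univ.erase i2 with hs
  have hi0 : i0 ∈ s := Finset.mem_erase.2 ⟨h02, Finset.mem_univ _⟩
  have hi1 : i1 ∈ s := Finset.mem_erase.2 ⟨h12, Finset.mem_univ _⟩
  have hsn : s.Nontrivial := ⟨i0, hi0, i1, hi1, h01⟩
  have hi2 : i2 ∉ s := by simp [hs]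
  -- the ideal of Q
  have hQp : (Ideal.span {qd k (Finset.univ : Finset ι)}).IsPrime :=
    (Ideal.span_singleton_prime (qd_prime _ hu).ne_zero).2 (qd_prime _ hu)
  have hQs : (Ideal.span {qd k s}).IsPrime :=
    (Ideal.span_singleton_prime (qd_prime _ hsn).ne_zero).2 (qd_prime _ hsn)
  -- the cut ideal
  set κ : k := (c (Sum.inl i2))⁻¹ with hκd
  have hκ : κ ≠ 0 := inv_ne_zero (hc _)
  have hκ1 : (C κ : MvPolynomial (ι ⊕ ι) k) * C (c (Sum.inl i2)) = 1 := by
    rw [← map_mul, hκd, inv_mul_cancel₀ (hc _), map_one]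
  have hspan : Ideal.span {qd k s, X (Sum.inl i2) ^ 3 + C κ * cb c s}
      = Ideal.span {qd k s, C (c (Sum.inl i2)) * X (Sum.inl i2) ^ 3 + cb c s} := by
    apply le_antisymm
    · rw [Ideal.span_le]
      rintro x (rfl | rfl)
      · exact Ideal.subset_span (by simp)
      · have e : X (Sum.inl i2) ^ 3 + C κ * cb c s
            = C κ * (C (c (Sum.inl i2)) * X (Sum.inl i2) ^ 3 + cb c s) := by
          rw [mul_add, ← mul_assoc, hκ1, one_mul]
        rw [SetLike.mem_coe, e]
        exact Ideal.mul_mem_left _ _ (Ideal.subset_span (by simp))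
    · rw [Ideal.span_le]
      rintro x (rfl | rfl)
      · exact Ideal.subset_span (by simp)
      · have e : C (c (Sum.inl i2)) * X (Sum.inl i2) ^ 3 + cb c s
            = C (c (Sum.inl i2)) * (X (Sum.inl i2) ^ 3 + C κ * cb c s) := by
          rw [mul_add, ← mul_assoc, mul_comm (C (c (Sum.inl i2))) (C κ), hκ1, one_mul]
        rw [SetLike.mem_coe, e]
        exact Ideal.mul_mem_left _ _ (Ideal.subset_span (by simp))
  have hcut : (Ideal.span {qd k s, C (c (Sum.inl i2)) * X (Sum.inl i2) ^ 3 + cb c s}).IsPrime := by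
    have hirr := cubic_irreducible s i0 i1 hi0 hi1 h01 c hc h3 κ hκ
    have : Fact (Irreducible (Polynomial.X ^ 3
      + Polynomial.C (tht k s i0 (C κ * cb c s)))) := ⟨hirr⟩
    have e : Ideal.span {qd k s, X (Sum.inl i2) ^ 3 + C κ * cb c s}
        = RingHom.ker (phi s i0 i2 (C κ * cb c s)) := by
      ext f
      rw [RingHom.mem_ker, ker_phi s i0 i2 (C κ * cb c s) hi0 hi2 hsn
        (mul_mem (Subalgebra.algebraMap_mem _ κ) (cb_mem_supported i2 c s hi2)) f]
    rw [← hspan, e]
    exact RingHom.ker_isPrime _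
  have hsup : Ideal.span {qd k (Finset.univ : Finset ι), cb c Finset.univ}
      ⊔ Ideal.span {X (Sum.inr i2)}
      = (Ideal.span {qd k s,
          C (c (Sum.inl i2)) * X (Sum.inl i2) ^ 3 + cb c s}).comap (kl k i2) := by
    rw [← comap_map_kl i2, Ideal.map_span, Set.image_pair, kl_qd, kl_cb i2 c _ (Finset.mem_univ _)]
  have hsup1 : Ideal.span {qd k (Finset.univ : Finset ι)}
      ⊔ Ideal.span {X (Sum.inr i2)} = (Ideal.span {qd k s}).comap (kl k i2) := by
    rw [← comap_map_kl i2, Ideal.map_span, Set.image_singleton, kl_qd]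
  have hFs : C (c (Sum.inl i2)) * X (Sum.inl i2) ^ 3 + cb c s ∉ Ideal.span {qd k s} := by
    intro h
    obtain ⟨a, ha⟩ := Ideal.mem_span_singleton'.1 h
    have h1 := congrArg (eval (fun w => if w = Sum.inl i2 then (1 : k) else 0)) ha
    have h2 : eval (fun w => if w = Sum.inl i2 then (1 : k) else 0) (qd k s) = 0 := by
      unfold qd
      rw [map_sum]
      refine Finset.sum_eq_zero fun i _ => ?_
      simp
    have h3 : eval (fun w => if w = Sum.inl i2 then (1 : k) else 0) (cb c s) = 0 := by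
      unfold cb
      rw [map_sum]
      refine Finset.sum_eq_zero fun i hi => ?_
      have hi' : i ≠ i2 := fun e => hi2 (e ▸ hi)
      simp [hi']
    rw [map_mul, h2, mul_zero, map_add, h3, map_mul, map_pow, eval_X, if_pos rfl, eval_C] at h1
    apply hc (Sum.inl i2)
    simpa using h1.symm
  refine isPrime_of_cut (homogeneousSubmodule (ι ⊕ ι) k) _ ?_ (X (Sum.inr i2)) ?_ ?_ ?_
  · apply Ideal.homogeneous_span
    rintro x (rfl | rfl)
    · exact ⟨2, qd_homogeneous _⟩
    · exact ⟨3, cb_homogeneous _ _⟩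
  · exact isHomogeneous_X k _
  · intro h hh
    obtain ⟨a, b, hab⟩ := Ideal.mem_span_pair.1 hh
    -- b lies in (Q, x)
    have hb : kl k i2 b ∈ Ideal.span {qd k s} := by
      have e := congrArg (kl k i2) hab
      rw [map_add, map_mul, map_mul, map_mul, kl_qd, kl_cb i2 c _ (Finset.mem_univ _), ← hs] at e
      have e0 : kl k i2 (X (Sum.inr i2)) = 0 := by simp [kl]
      rw [e0, zero_mul] at e
      have e1 : kl k i2 b * (C (c (Sum.inl i2)) * X (Sum.inl i2) ^ 3 + cb c s)
          = (-(kl k i2 a)) * qd k s := by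
        linear_combination e
      have e2 : kl k i2 b * (C (c (Sum.inl i2)) * X (Sum.inl i2) ^ 3 + cb c s)
          ∈ Ideal.span {qd k s} := by
        rw [e1]
        exact Ideal.mul_mem_left _ _ (Ideal.mem_span_singleton_self _)
      exact (hQs.mem_or_mem e2).resolve_right hFs
    have hb' : b ∈ Ideal.span {qd k (Finset.univ : Finset ι)}
      ⊔ Ideal.span {X (Sum.inr i2)} := by
      rw [hsup1]; exact hb
    obtain ⟨u, hu1, v, hv1, huv⟩ := Submodule.mem_sup.1 hb'
    obtain ⟨v', rfl⟩ := Ideal.mem_span_singleton'.1 hv1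
    have hmem : X (Sum.inr i2) * (h - v' * cb c Finset.univ) ∈
        Ideal.span {qd k (Finset.univ : Finset ι)} := by
      have e : X (Sum.inr i2) * (h - v' * cb c Finset.univ)
          = a * qd k Finset.univ + cb c Finset.univ * u := by
        rw [mul_sub, ← hab, ← huv]; ring
      rw [e]
      exact add_mem (Ideal.mul_mem_left _ _ (Ideal.mem_span_singleton_self _))
        (Ideal.mul_mem_left _ _ hu1)
    have h2 := (hQp.mem_or_mem hmem).resolve_left (X_not_mem_span_qd _ _)
    have l1 : Ideal.span {qd k (Finset.univ : Finset ι)} ≤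
        Ideal.span {qd k (Finset.univ : Finset ι), cb c Finset.univ} :=
      Ideal.span_mono (by simp)
    have e : h = (h - v' * cb c Finset.univ) + v' * cb c Finset.univ := by ring
    rw [e]
    exact add_mem (l1 h2) (Ideal.mul_mem_left _ _ (Ideal.subset_span (by simp)))
  · rw [hsup]
    exact Ideal.IsPrime.comap _

end final

end Dom
end FQ
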