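import Pool.Agent.Helper41.FQ.Def

/-!
FQ-FIELD: alternating multiderivations of the function field that are regular on an affine
open cover give sections of the anticanonical sheaf.
-/

open CategoryTheory AlgebraicGeometry TopologicalSpace

universe u

noncomputable section

set_option linter.unusedSectionVars false

namespace FQ

/-- An alternating multiderivation of `K` in `n` variables over the scalars `sc : k → K`. -/
structure MultiDer {k K : Type*} [CommRing k] [CommRing K] (sc : k →+* K) (n : ℕ) where
  toFun : (Fin n → K) → K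
  map_add' : ∀ (g : Fin n → K) (j : Fin n) (a b : K),
    toFun (Function.update g j (a + b)) =
      toFun (Function.update g j a) + toFun (Function.update g j b)
  leibniz' : ∀ (g : Fin n → K) (j : Fin n) (a b : K),
    toFun (Function.update g j (a * b)) =
      a * toFun (Function.update g j b) + b * toFun (Function.update g j a)
  map_scal' : ∀ (g : Fin n → K) (j : Fin n) (c : k), toFun (Function.update g j (sc c)) = 0
  alternating' : ∀ (g : Fin n → K) (j j' : Fin n), j ≠ j' → g j = g j' → toFun g = 0

namespace MultiDer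

variable {k K : Type*} [CommRing k] [CommRing K] {sc : k →+* K} {n : ℕ} (D : MultiDer sc n)

/-- If `D` maps tuples of the subring `A` into `A` and `s ∈ A`, then `D` maps tuples of
`{f | s ^ N * f ∈ A for some N}` into the same set. -/
theorem regular_away (A : Subring K) (hA : ∀ g : Fin n → K, (∀ j, g j ∈ A) → D.toFun g ∈ A)
    (s : K) (hs : s ∈ A) (g : Fin n → K) (hg : ∀ j, ∃ N : ℕ, s ^ N * g j ∈ A) :
    ∃ N : ℕ, s ^ N * D.toFun g ∈ A := by
  classical
  have key : ∀ (J : Finset (Fin n)) (g : Fin n → K), (∀ j, ∃ N : ℕ, s ^ N * g j ∈ A) →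
      (∀ j ∉ J, g j ∈ A) → ∃ N : ℕ, s ^ N * D.toFun g ∈ A := by
    intro J
    induction J using Finset.induction_on with
    | empty =>
      intro g _ h2
      exact ⟨0, by simpa using hA g (fun j => h2 j (by simp))⟩
    | insert i J hi ih =>
      intro g h1 h2
      obtain ⟨N, hN⟩ := h1 i
      have e := D.leibniz' g i (s ^ N) (g i)
      rw [Function.update_eq_self] at e
      -- the tuple with `s ^ N * g i`
      have r1 := ih (Function.update g i (s ^ N * g i)) (fun j => by
        by_cases hj : j = i
        · subst hj; exact ⟨0, by simpa using hN⟩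
        · rw [Function.update_of_ne hj]; exact h1 j) (fun j hj => by
        by_cases hj' : j = i
        · subst hj'; simpa using hN
        · rw [Function.update_of_ne hj']
          exact h2 j (by simp [hj', hj]))
      have r2 := ih (Function.update g i (s ^ N)) (fun j => by
        by_cases hj : j = i
        · subst hj; exact ⟨0, by simpa using pow_mem hs N⟩
        · rw [Function.update_of_ne hj]; exact h1 j) (fun j hj => by
        by_cases hj' : j = i
        · subst hj'; simpa using pow_mem hs N
        · rw [Function.update_of_ne hj']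
          exact h2 j (by simp [hj', hj]))
      obtain ⟨a, ha⟩ := r1
      obtain ⟨b, hb⟩ := r2
      refine ⟨N + (a + (N + b)), ?_⟩
      have e2 : s ^ (N + (a + (N + b))) * D.toFun g
          = s ^ (N + b) * (s ^ a * D.toFun (Function.update g i (s ^ N * g i)))
            - (s ^ a * (s ^ N * g i)) * (s ^ b * D.toFun (Function.update g i (s ^ N))) := by
        rw [e]; ring
      rw [e2]
      exact sub_mem (mul_mem (pow_mem hs _) ha) (mul_mem (mul_mem (pow_mem hs _) hN) hb)
  exact key Finset.univ g hg (fun j hj => absurd (Finset.mem_univ j) hj)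

end MultiDer

section Regular

variable {X : Scheme.{u}} [IsIntegral X]

theorem germ_res_ff (U V : X.Opens) [Nonempty U] [Nonempty V] (i : V ⟶ U) (t : Γ(X, U)) :
    X.germToFunctionField V (X.presheaf.map i.op t) = X.germToFunctionField U t :=
  X.presheaf.germ_res_apply i (genericPoint X) _ t

theorem generic_mem (U : X.Opens) [h : Nonempty U] : genericPoint X ∈ U :=
  ((genericPoint_spec X).mem_open_set_iff U.isOpen).mpr (by simpa using h)

/-- A rational function which is regular near every point of `U` is a function on `U`. -/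
theorem exists_section (U : X.Opens) [Nonempty U] (f : X.functionField)
    (hf : ∀ x ∈ U, ∃ (V : X.Opens) (_ : x ∈ V) (_ : Nonempty V) (t : Γ(X, V)),
      X.germToFunctionField V t = f) :
    ∃ t : Γ(X, U), X.germToFunctionField U t = f := by
  have h1 : ∀ x : U, ∃ (V : X.Opens) (_ : x.1 ∈ V) (_ : V ≤ U) (_ : Nonempty V) (t : Γ(X, V)),
      X.germToFunctionField V t = f := by
    rintro ⟨x, hx⟩
    obtain ⟨V, hxV, hV, t, ht⟩ := hf x hx
    have : Nonempty (V ⊓ U : X.Opens) := ⟨⟨x, hxV, hx⟩⟩
    refine ⟨V ⊓ U, ⟨hxV, hx⟩, inf_le_right, this, X.presheaf.map (homOfLE inf_le_left).op t, ?_⟩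
    rw [germ_res_ff]
    exact ht
  choose V hxV hVU hV t ht using h1
  have hcov : U ≤ iSup V := fun x hx => by
    rw [Opens.mem_iSup]
    exact ⟨⟨x, hx⟩, hxV ⟨x, hx⟩⟩
  obtain ⟨t', ht', -⟩ := X.sheaf.existsUnique_gluing' V U (fun x => homOfLE (hVU x)) hcov t (by
    intro i j
    have hi := hV i
    have hj := hV j
    have : Nonempty (V i ⊓ V j : X.Opens) :=
      ⟨⟨genericPoint X, generic_mem (V i), generic_mem (V j)⟩⟩
    apply X.germToFunctionField_injective (V i ⊓ V j)
    have e1 := germ_res_ff (V i) (V i ⊓ V j) (Opens.infLELeft (V i) (V j)) (t i)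
    have e2 := germ_res_ff (V j) (V i ⊓ V j) (Opens.infLERight (V i) (V j)) (t j)
    exact (e1.trans (ht i)).trans (e2.trans (ht j)).symm)
  obtain ⟨x0⟩ := ‹Nonempty U›
  refine ⟨t', ?_⟩
  have h0 := hV x0
  have e := ht' x0
  rw [← ht x0, ← e]
  exact (germ_res_ff U (V x0) (homOfLE (hVU x0)) t').symm

end Regular

section Main

variable {k : Type u} [Field k] {X : Scheme.{u}} [IsIntegral X]

/-- The scalars in the function field. -/
def scalK (s : X ⟶ Spec (.of k)) : k →+* X.functionField :=
  (X.presheaf.germ ⊤ (genericPoint X) trivial).hom.comp (scal s ⊤)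

theorem res_scal (s : X ⟶ Spec (.of k)) {U V : X.Opens} (h : V ≤ U) (c : k) :
    res h (scal s U c) = scal s V c := by
  unfold res scal
  have e := Scheme.Hom.appLE_map s (U := ⊤) (V := U) (V' := V) le_top (homOfLE h).op
  rw [← e]
  rfl

theorem scalK_eq (s : X ⟶ Spec (.of k)) (U : X.Opens) [Nonempty U] (c : k) :
    X.germToFunctionField U (scal s U c) = scalK s c := by
  rw [← res_scal s (le_top : U ≤ ⊤) c]
  exact X.presheaf.germ_res_apply (homOfLE le_top) (genericPoint X) _ _

/-- `D` maps functions on `W` to functions on `W`. -/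
def MultiDer.RegularOn {s : X ⟶ Spec (.of k)} {n : ℕ} (D : MultiDer (scalK s) n)
    (W : X.Opens) [Nonempty W] : Prop :=
  ∀ g : Fin n → Γ(X, W), ∃ y : Γ(X, W),
    X.germToFunctionField W y = D.toFun (fun j => X.germToFunctionField W (g j))

theorem MultiDer.RegularOn.basicOpen {s : X ⟶ Spec (.of k)} {n : ℕ} {D : MultiDer (scalK s) n}
    {W : X.Opens} [Nonempty W] (hW : IsAffineOpen W) (h : D.RegularOn W) (r : Γ(X, W))
    [Nonempty (X.basicOpen r)] : D.RegularOn (X.basicOpen r) := by
  intro g
  have hloc := hW.isLocalization_basicOpen r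
  set A : Subring X.functionField := (X.germToFunctionField W).hom.range with hA
  set r' := X.germToFunctionField W r with hr'
  have hr : r' ∈ A := ⟨r, rfl⟩
  have key : ∀ j, ∃ N : ℕ, r' ^ N * X.germToFunctionField (X.basicOpen r) (g j) ∈ A := by
    intro j
    obtain ⟨⟨a, ⟨_, N, rfl⟩⟩, ha⟩ := IsLocalization.surj (Submonoid.powers r) (g j)
    refine ⟨N, a, ?_⟩
    have e := congrArg (X.germToFunctionField (X.basicOpen r)) ha
    have e1 := germ_res_ff W (X.basicOpen r) (homOfLE (X.basicOpen_le r)) a
    have e2 := germ_res_ff W (X.basicOpen r) (homOfLE (X.basicOpen_le r)) (r ^ N)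
    rw [map_mul] at e
    have e3 : X.germToFunctionField (X.basicOpen r)
        (algebraMap Γ(X, W) Γ(X, X.basicOpen r) (r ^ N)) = r' ^ N :=
      e2.trans (map_pow _ _ _)
    have e4 : X.germToFunctionField (X.basicOpen r)
        (algebraMap Γ(X, W) Γ(X, X.basicOpen r) a) = X.germToFunctionField W a := e1
    have e5 := e.trans e4
    change X.germToFunctionField W a = _
    rw [← e5, mul_comm]
    congr 1
  obtain ⟨N, y, hy⟩ := D.regular_away A (by
    intro g' hg'
    choose y hy using hg'
    obtain ⟨z, hz⟩ := h y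
    refine ⟨z, ?_⟩
    have : g' = fun j => X.germToFunctionField W (y j) := funext fun j => (hy j).symm
    rw [this]
    exact hz) r' hr _ key
  -- the inverse of `r ^ N` on the basic open set
  have hu : IsUnit (algebraMap Γ(X, W) Γ(X, X.basicOpen r) (r ^ N)) :=
    IsLocalization.map_units (M := Submonoid.powers r) Γ(X, X.basicOpen r) ⟨r ^ N, N, rfl⟩
  obtain ⟨u, hu⟩ := hu
  have hr0 : r' ^ N ≠ 0 := by
    intro h0
    have e2 := germ_res_ff W (X.basicOpen r) (homOfLE (X.basicOpen_le r)) (r ^ N)
    have e3 : X.germToFunctionField (X.basicOpen r)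
        (algebraMap Γ(X, W) Γ(X, X.basicOpen r) (r ^ N)) = r' ^ N :=
      e2.trans (map_pow _ _ _)
    rw [h0, ← hu] at e3
    have : IsUnit (X.germToFunctionField (X.basicOpen r) (u : Γ(X, X.basicOpen r))) :=
      u.isUnit.map _
    rw [e3] at this
    exact not_isUnit_zero this
  refine ⟨algebraMap Γ(X, W) Γ(X, X.basicOpen r) y * ↑u⁻¹, ?_⟩
  have e2 := germ_res_ff W (X.basicOpen r) (homOfLE (X.basicOpen_le r)) (r ^ N)
  have e3 : X.germToFunctionField (X.basicOpen r) (u : Γ(X, X.basicOpen r)) = r' ^ N := by
    rw [hu]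
    exact e2.trans (map_pow _ _ _)
  have e4 : X.germToFunctionField (X.basicOpen r)
      (algebraMap Γ(X, W) Γ(X, X.basicOpen r) y) = X.germToFunctionField W y :=
    germ_res_ff W (X.basicOpen r) (homOfLE (X.basicOpen_le r)) y
  have e5 : X.germToFunctionField (X.basicOpen r) ((u⁻¹ : (Γ(X, X.basicOpen r))ˣ) :
      Γ(X, X.basicOpen r)) * r' ^ N = 1 := by
    rw [← e3, ← map_mul, Units.inv_mul, map_one]
  apply mul_right_cancel₀ hr0
  rw [map_mul, mul_assoc, e5, mul_one, e4, mul_comm]
  exact hy

theorem MultiDer.regularOn_of_cover {s : X ⟶ Spec (.of k)} {n : ℕ} (D : MultiDer (scalK s) n)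
    (hD : ∀ x : X, ∃ (W : X.Opens) (_ : x ∈ W) (_ : Nonempty W), IsAffineOpen W ∧ D.RegularOn W)
    (U : X.Opens) [Nonempty U] : D.RegularOn U := by
  intro g
  apply exists_section
  intro x hx
  obtain ⟨W, hxW, hWn, hWa, hW⟩ := hD x
  obtain ⟨r, hrU, hxr⟩ := hWa.exists_basicOpen_le ⟨x, hx⟩ hxW
  have hne : Nonempty (X.basicOpen r) := ⟨⟨x, hxr⟩⟩
  have h1 := MultiDer.RegularOn.basicOpen hWa hW r
  obtain ⟨y, hy⟩ := h1 (fun j => X.presheaf.map (homOfLE hrU).op (g j))
  refine ⟨X.basicOpen r, hxr, hne, y, ?_⟩
  rw [hy]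
  congr 1
  funext j
  exact germ_res_ff U (X.basicOpen r) (homOfLE hrU) (g j)

theorem subsingleton_of_not_nonempty (U : X.Opens) (h : ¬ Nonempty U) :
    Subsingleton Γ(X, U) := by
  have : U = ⊥ := by
    ext x
    simp only [Opens.coe_bot, Set.mem_empty_iff_false, iff_false]
    exact fun hx => h ⟨⟨x, hx⟩⟩
  subst this
  infer_instance

open Classical in
/-- The section of the anticanonical sheaf attached to a multiderivation of the function field
which is regular on an affine cover. -/
def MultiDer.sec {s : X ⟶ Spec (.of k)} {n : ℕ} (D : MultiDer (scalK s) n)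
    (hD : ∀ x : X, ∃ (W : X.Opens) (_ : x ∈ W) (_ : Nonempty W), IsAffineOpen W ∧ D.RegularOn W)
    (U : X.Opens) (g : Fin n → Γ(X, U)) : Γ(X, U) :=
  if h : Nonempty U then (D.regularOn_of_cover hD U g).choose else 0

theorem MultiDer.germ_sec {s : X ⟶ Spec (.of k)} {n : ℕ} (D : MultiDer (scalK s) n)
    (hD : ∀ x : X, ∃ (W : X.Opens) (_ : x ∈ W) (_ : Nonempty W), IsAffineOpen W ∧ D.RegularOn W)
    (U : X.Opens) [h : Nonempty U] (g : Fin n → Γ(X, U)) :
    X.germToFunctionField U (D.sec hD U g) =
      D.toFun (fun j => X.germToFunctionField U (g j)) := by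
  unfold MultiDer.sec
  rw [dif_pos h]
  exact (D.regularOn_of_cover hD U g).choose_spec

theorem germ_update {n : ℕ} (U : X.Opens) [h : Nonempty U] (g : Fin n → Γ(X, U)) (j : Fin n)
    (a : Γ(X, U)) :
    (fun l => X.germToFunctionField U (Function.update g j a l)) =
      Function.update (fun l => X.germToFunctionField U (g l)) j
        (X.germToFunctionField U a) := by
  funext l
  by_cases hl : l = j
  · subst hl; simp
  · simp [Function.update_of_ne hl]

theorem update_zero {α : Type*} {n : ℕ} (g : Fin 1 → Fin n → α) (i : Fin 1) (v : Fin n → α) :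
    Function.update g i v 0 = v := by
  rw [Subsingleton.elim i 0, Function.update_self]

/-- The section of the anticanonical sheaf attached to a multiderivation of the function field
which is regular on an affine cover. -/
def MultiDer.toSection {s : X ⟶ Spec (.of k)} {n : ℕ} (D : MultiDer (scalK s) n)
    (hD : ∀ x : X, ∃ (W : X.Opens) (_ : x ∈ W) (_ : Nonempty W),
      IsAffineOpen W ∧ D.RegularOn W) : AnticanonicalSection s n 1 where
  toFun U g := D.sec hD U (g 0)
  map_add' := by
    intro U g i j a b
    by_cases hU : Nonempty U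
    · apply X.germToFunctionField_injective U
      rw [map_add, D.germ_sec, D.germ_sec, D.germ_sec, update_zero, update_zero, update_zero,
        Subsingleton.elim i 0, germ_update, germ_update, germ_update, map_add, D.map_add']
    · exact @Subsingleton.elim _ (subsingleton_of_not_nonempty U hU) _ _
  leibniz' := by
    intro U g i j a b
    by_cases hU : Nonempty U
    · apply X.germToFunctionField_injective U
      rw [map_add, map_mul, map_mul, D.germ_sec, D.germ_sec, D.germ_sec, update_zero, update_zero,
        update_zero, Subsingleton.elim i 0, germ_update, germ_update, germ_update, map_mul,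
        D.leibniz']
    · exact @Subsingleton.elim _ (subsingleton_of_not_nonempty U hU) _ _
  map_scal' := by
    intro U g i j c
    by_cases hU : Nonempty U
    · apply X.germToFunctionField_injective U
      rw [map_zero, D.germ_sec, update_zero, Subsingleton.elim i 0, germ_update, scalK_eq,
        D.map_scal']
    · exact @Subsingleton.elim _ (subsingleton_of_not_nonempty U hU) _ _
  alternating' := by
    intro U g i j j' hj h
    by_cases hU : Nonempty U
    · apply X.germToFunctionField_injective U
      rw [Subsingleton.elim i 0] at h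
      rw [map_zero, D.germ_sec]
      exact D.alternating' _ j j' hj (congrArg _ h)
    · exact @Subsingleton.elim _ (subsingleton_of_not_nonempty U hU) _ _
  map_res' := by
    intro U V h g
    by_cases hV : Nonempty V
    · have hU : Nonempty U := ⟨⟨genericPoint X, h (generic_mem V)⟩⟩
      apply X.germToFunctionField_injective V
      rw [D.germ_sec]
      have e1 : X.germToFunctionField V (res h (D.sec hD U (g 0))) =
          X.germToFunctionField U (D.sec hD U (g 0)) := germ_res_ff U V (homOfLE h) _
      rw [e1, D.germ_sec]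
      congr 1
      funext j
      exact germ_res_ff U V (homOfLE h) _
    · exact @Subsingleton.elim _ (subsingleton_of_not_nonempty V hV) _ _

theorem MultiDer.germ_toSection {s : X ⟶ Spec (.of k)} {n : ℕ} (D : MultiDer (scalK s) n)
    (hD : ∀ x : X, ∃ (W : X.Opens) (_ : x ∈ W) (_ : Nonempty W), IsAffineOpen W ∧ D.RegularOn W)
    (U : X.Opens) [h : Nonempty U] (g : Fin 1 → Fin n → Γ(X, U)) :
    X.germToFunctionField U ((D.toSection hD).toFun U g) =
      D.toFun (fun j => X.germToFunctionField U (g 0 j)) :=
  D.germ_sec hD U (g 0)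

/-- Multiplication by a function. -/
def MultiDer.smul {k K : Type*} [CommRing k] [CommRing K] {sc : k →+* K} {n : ℕ} (c : K)
    (D : MultiDer sc n) : MultiDer sc n where
  toFun g := c * D.toFun g
  map_add' g j a b := by rw [D.map_add']; ring
  leibniz' g j a b := by rw [D.leibniz']; ring
  map_scal' g j a := by rw [D.map_scal', mul_zero]
  alternating' g j j' h e := by rw [D.alternating' g j j' h e, mul_zero]

theorem mem_basicOpen_iff_germ {U : X.Opens} (f : Γ(X, U)) (x : X) (hx : x ∈ U) :
    x ∈ X.basicOpen f ↔ IsUnit (X.presheaf.germ U x hx f) :=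
  Scheme.mem_basicOpen X f x hx

/-- The locus of a section on an affine open set on which it is `h` times a generator. -/
theorem MultiDer.locus_iff {s : X ⟶ Spec (.of k)} {n : ℕ} (D D' : MultiDer (scalK s) n)
    (hD : ∀ x : X, ∃ (W : X.Opens) (_ : x ∈ W) (_ : Nonempty W), IsAffineOpen W ∧ D.RegularOn W)
    (W : X.Opens) [Nonempty W] (hW : IsAffineOpen W) (h : Γ(X, W))
    (hDD : ∀ g, D.toFun g = X.germToFunctionField W h * D'.toFun g)
    (hreg : D'.RegularOn W)
    (hunit : ∃ (g : Fin n → Γ(X, W)) (u : (Γ(X, W))ˣ),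
      X.germToFunctionField W (u : Γ(X, W)) =
        D'.toFun (fun j => X.germToFunctionField W (g j)))
    (x : X) (hx : x ∈ W) : x ∈ (D.toSection hD).locus ↔ x ∈ X.basicOpen h := by
  constructor
  · intro hl
    unfold AnticanonicalSection.locus at hl
    rw [Opens.mem_iSup] at hl
    obtain ⟨U, hl⟩ := hl
    rw [Opens.mem_iSup] at hl
    obtain ⟨g, hl⟩ := hl
    have hxU : x ∈ U := X.basicOpen_le _ hl
    obtain ⟨r, hrU, hxr⟩ := hW.exists_basicOpen_le ⟨x, hxU⟩ hx
    have hne : Nonempty (X.basicOpen r) := ⟨⟨x, hxr⟩⟩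
    have hU : Nonempty U := ⟨⟨x, hxU⟩⟩
    obtain ⟨y, hy⟩ := MultiDer.RegularOn.basicOpen hW hreg r
      (fun j => X.presheaf.map (homOfLE hrU).op (g 0 j))
    -- on the basic open set the value is `h * y`
    have e1 : X.presheaf.map (homOfLE hrU).op ((D.toSection hD).toFun U g) =
        X.presheaf.map (homOfLE (X.basicOpen_le r)).op h * y := by
      apply X.germToFunctionField_injective (X.basicOpen r)
      rw [map_mul, germ_res_ff, germ_res_ff, hy, D.germ_toSection, hDD]
      congr 2
      funext j
      exact (germ_res_ff U (X.basicOpen r) (homOfLE hrU) (g 0 j)).symm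
    have hu : IsUnit (X.presheaf.germ (X.basicOpen r) x hxr
        (X.presheaf.map (homOfLE hrU).op ((D.toSection hD).toFun U g))) := by
      rw [X.presheaf.germ_res_apply]
      exact (mem_basicOpen_iff_germ _ x hxU).1 hl
    rw [e1, map_mul, X.presheaf.germ_res_apply] at hu
    exact (mem_basicOpen_iff_germ h x hx).2 (isUnit_of_mul_isUnit_left hu)
  · intro hl
    obtain ⟨g, u, hu⟩ := hunit
    unfold AnticanonicalSection.locus
    rw [Opens.mem_iSup]
    refine ⟨W, ?_⟩
    rw [Opens.mem_iSup]
    refine ⟨fun _ => g, ?_⟩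
    have e1 : (D.toSection hD).toFun W (fun _ => g) = h * u := by
      apply X.germToFunctionField_injective W
      rw [map_mul, D.germ_toSection, hDD, hu]
    rw [e1, mem_basicOpen_iff_germ _ x hx, map_mul]
    exact ((mem_basicOpen_iff_germ h x hx).1 hl).mul (u.isUnit.map _)

end Main

end FQ
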