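import Pool.Agent.FQ.Dom
import Pool.Agent.Helper41.FQ.Gen

/-!
FQ-GEN: existence of the generic point of the cone.
-/

open MvPolynomial

universe u

noncomputable section

namespace FQ

namespace GenEx

/-- the identification of the coordinates -/
def eqv : Fin 4 ⊕ Fin 4 ≃ Idx where
  toFun v := match v with
    | Sum.inl i => (i, false)
    | Sum.inr i => (i, true)
  invFun l := if l.2 then Sum.inr l.1 else Sum.inl l.1
  left_inv v := by rcases v with v | v <;> simp
  right_inv l := by
    obtain ⟨i, b⟩ := l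
    cases b <;> simp

variable {k : Type u} [Field k]

theorem rename_qd : renameEquiv k eqv (Dom.qd k (Finset.univ : Finset (Fin 4))) = polyQ k := by
  unfold Dom.qd polyQ
  rw [map_sum]
  refine Finset.sum_congr rfl fun i _ => ?_
  simp [eqv]

theorem rename_cb (κ : Idx → k) :
    renameEquiv k eqv (Dom.cb (fun v => κ (eqv v)) (Finset.univ : Finset (Fin 4))) =
      polyF κ := by
  unfold Dom.cb polyF
  rw [map_sum, ← Equiv.sum_comp eqv, Fintype.sum_sum_type, ← Finset.sum_add_distrib]
  refine Finset.sum_congr rfl fun i _ => ?_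
  simp [eqv]

theorem isPrime (h3 : (3 : k) ≠ 0) (κ : Idx → k) (hκ : ∀ l, κ l ≠ 0) :
    (Ideal.span ({polyQ k, polyF κ} : Set (MvPolynomial Idx k))).IsPrime := by
  have h := Dom.span_isPrime (ι := Fin 4) (fun v => κ (eqv v)) (fun v => hκ _) h3 (by simp)
  have e : Ideal.span ({polyQ k, polyF κ} : Set (MvPolynomial Idx k)) =
      (Ideal.span {Dom.qd k (Finset.univ : Finset (Fin 4)),
        Dom.cb (fun v => κ (eqv v)) Finset.univ}).comap
        (renameEquiv k eqv).symm := by
    rw [← rename_qd, ← rename_cb, ← Set.image_pair, ← Ideal.map_span]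
    exact (Ideal.map_symm (renameEquiv k eqv).symm.toRingEquiv)
  rw [e]
  exact Ideal.IsPrime.comap _

end GenEx

/-- Existence of the generic point. -/
theorem exists_genPt {k : Type u} [Field k] (h3 : (3 : k) ≠ 0) (κ : Idx → k)
    (hκ : ∀ l, κ l ≠ 0) :
    ∃ (L : Type u) (_ : Field L) (_ : Algebra k L), Nonempty (GenPt κ L) := by
  have hp := GenEx.isPrime h3 κ hκ
  set I := Ideal.span ({polyQ k, polyF κ} : Set (MvPolynomial Idx k)) with hI
  have : IsDomain (MvPolynomial Idx k ⧸ I) := Ideal.Quotient.isDomain I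
  refine ⟨FractionRing (MvPolynomial Idx k ⧸ I), inferInstance, inferInstance, ⟨{
    ζ := fun l => algebraMap (MvPolynomial Idx k ⧸ I) _ (Ideal.Quotient.mk I (X l))
    ker := ?_ }⟩⟩
  intro p
  have h1 : aeval (fun l => algebraMap (MvPolynomial Idx k ⧸ I)
      (FractionRing (MvPolynomial Idx k ⧸ I)) (Ideal.Quotient.mk I (X l))) p =
      algebraMap (MvPolynomial Idx k ⧸ I) (FractionRing (MvPolynomial Idx k ⧸ I))
        (Ideal.Quotient.mk I p) := by
    induction p using MvPolynomial.induction_on with
    | C c =>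
      rw [MvPolynomial.algHom_C]
      rfl
    | add p q hp hq => rw [map_add, map_add, map_add, hp, hq]
    | mul_X p l hp => rw [map_mul, map_mul, map_mul, hp, aeval_X]
  rw [h1, FaithfulSMul.algebraMap_eq_zero_iff, Ideal.Quotient.eq_zero_iff_mem]

end FQ
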