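import Pool.Agent.FQ.Field

/-!
FQ-IMG: the closure of a point of projective space with values in an extension field,
as an integral projective scheme, with its standard affine charts inside the field.
-/

open CategoryTheory AlgebraicGeometry TopologicalSpace HomogeneousLocalization

universe u

noncomputable section

set_option linter.unusedSectionVars false

namespace FQ

attribute [local instance] MvPolynomial.gradedAlgebra

namespace Img

section general

variable {L : Type u} [Field L] {Y : Scheme.{u}} (f : Spec (.of L) ⟶ Y) [QuasiCompact f]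

theorem top_le (W : f.image.Opens) (hW : Nonempty W) : ⊤ ≤ f.toImage ⁻¹ᵁ W := by
  intro x _
  have hd : DenseRange f.toImage := (inferInstance : IsDominant f.toImage).denseRange
  obtain ⟨⟨w, hw⟩⟩ := hW
  obtain ⟨z, hz⟩ := hd.exists_mem_open W.isOpen ⟨w, hw⟩
  have : z = x := Subsingleton.elim (α := PrimeSpectrum L) z x
  subst this
  exact hz

theorem app_injective (W : f.image.Opens) : Function.Injective (f.toImage.app W) := by
  rw [injective_iff_map_eq_zero]
  intro a ha
  have hB := Y.isBasis_affineOpens.of_isInducing f.imageι.isEmbedding.isInducing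
  have hcov : ∀ x : W, ∃ U : Y.affineOpens, x.1 ∈ f.imageι ⁻¹ᵁ U.1 ∧ f.imageι ⁻¹ᵁ U.1 ≤ W := by
    rintro ⟨x, hx⟩
    obtain ⟨_, ⟨_, ⟨U, hU, rfl⟩, rfl⟩, hxU, hUW⟩ := hB.exists_subset_of_mem_open hx W.isOpen
    exact ⟨⟨U, hU⟩, hxU, hUW⟩
  choose U hxU hUW using hcov
  refine f.image.sheaf.eq_of_locally_eq' (fun x => f.imageι ⁻¹ᵁ (U x).1) W
    (fun x => homOfLE (hUW x)) (fun x hx => ?_) a 0 (fun x => ?_)
  · rw [Opens.mem_iSup]
    exact ⟨⟨x, hx⟩, hxU ⟨x, hx⟩⟩
  · rw [map_zero]
    have e := congrArg (fun g => g.hom a) (f.toImage.naturality (homOfLE (hUW x)).op)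
    simp only [CommRingCat.hom_comp, RingHom.coe_comp, Function.comp_apply] at e
    refine (injective_iff_map_eq_zero _).1 (f.toImage_app_injective (U x)) _ (e.trans ?_)
    have e2 : (f.toImage.app W).hom a = 0 := ha
    rw [e2, map_zero]

/-- The evaluation at the point. -/
def psi (W : f.image.Opens) (hW : Nonempty W) : Γ(f.image, W) →+* L :=
  (f.toImage.appLE W ⊤ (top_le f W hW) ≫ (Scheme.ΓSpecIso (.of L)).hom).hom

theorem psi_injective (W : f.image.Opens) (hW : Nonempty W) :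
    Function.Injective (psi f W hW) := by
  have hW' : ⊤ = f.toImage ⁻¹ᵁ W := le_antisymm (top_le f W hW) le_top
  have e : psi f W hW = (f.toImage.app W ≫ ((Spec (.of L)).presheaf.map (eqToHom hW').op ≫
      (Scheme.ΓSpecIso (.of L)).hom)).hom := by
    unfold psi
    rw [Scheme.Hom.appLE, Category.assoc]
    rfl
  rw [e]
  have : Function.Injective (((Spec (.of L)).presheaf.map (eqToHom hW').op ≫
      (Scheme.ΓSpecIso (.of L)).hom)).hom :=
    (ConcreteCategory.bijective_of_isIso _).1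
  rw [CommRingCat.hom_comp]
  exact this.comp (app_injective f W)

instance isIntegral : IsIntegral f.image where
  nonempty := ⟨f.toImage (⊥ : PrimeSpectrum L)⟩
  component_integral W hW := by
    have := psi_injective f W (by simpa using hW)
    exact this.isDomain _

theorem psi_res (W V : f.image.Opens) (hW : Nonempty W) (hV : Nonempty V) (i : V ⟶ W)
    (a : Γ(f.image, W)) : psi f V hV (f.image.presheaf.map i.op a) = psi f W hW a := by
  unfold psi
  rw [← Scheme.Hom.map_appLE f.toImage (top_le f V hV) i.op]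
  rfl

theorem exists_affine : ∃ W : f.image.Opens, IsAffineOpen W ∧ Nonempty W := by
  obtain ⟨_, ⟨W, hW, rfl⟩, hxW, -⟩ := f.image.isBasis_affineOpens.exists_subset_of_mem_open
    (Set.mem_univ (genericPoint f.image)) isOpen_univ
  exact ⟨W, hW, ⟨⟨_, hxW⟩⟩⟩

/-- an auxiliary affine open subset -/
def W0 : f.image.Opens := (exists_affine f).choose

theorem W0_affine : IsAffineOpen (W0 f) := (exists_affine f).choose_spec.1

theorem W0_nonempty : Nonempty (W0 f) := (exists_affine f).choose_spec.2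

/-- The embedding of the function field into `L`. -/
def phi : f.image.functionField →+* L :=
  letI : Nonempty (W0 f) := W0_nonempty f
  haveI : IsFractionRing Γ(f.image, W0 f) f.image.functionField :=
    functionField_isFractionRing_of_isAffineOpen f.image (W0 f) (W0_affine f)
  IsFractionRing.lift (A := Γ(f.image, W0 f)) (K := f.image.functionField)
    (psi_injective f (W0 f) (W0_nonempty f))

theorem phi_germ (W : f.image.Opens) [hW : Nonempty W] (a : Γ(f.image, W)) :
    phi f (f.image.germToFunctionField W a) = psi f W hW a := by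
  have hW0 : Nonempty (W0 f) := W0_nonempty f
  have : IsFractionRing Γ(f.image, W0 f) f.image.functionField :=
    functionField_isFractionRing_of_isAffineOpen f.image (W0 f) (W0_affine f)
  have hlift : ∀ c : Γ(f.image, W0 f),
      phi f (f.image.germToFunctionField (W0 f) c) = psi f (W0 f) hW0 c := fun c =>
    IsFractionRing.lift_algebraMap (K := f.image.functionField)
      (psi_injective f (W0 f) (W0_nonempty f)) c
  obtain ⟨c, d, hd, hcd⟩ := IsFractionRing.div_surjective (A := Γ(f.image, W0 f))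
    (f.image.germToFunctionField W a)
  have hd0 : d ≠ 0 := nonZeroDivisors.ne_zero hd
  have hinj := f.image.germToFunctionField_injective (W0 f)
  have hgd : f.image.germToFunctionField (W0 f) d ≠ 0 := by
    intro h
    exact hd0 (hinj (h.trans (map_zero _).symm))
  have e1 : f.image.germToFunctionField W a * f.image.germToFunctionField (W0 f) d
      = f.image.germToFunctionField (W0 f) c := by
    rw [← hcd]
    exact div_mul_cancel₀ _ hgd
  have hV : Nonempty (W ⊓ W0 f : f.image.Opens) :=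
    ⟨⟨genericPoint f.image, generic_mem W, generic_mem (W0 f)⟩⟩
  have e2 : f.image.presheaf.map (homOfLE (inf_le_left : W ⊓ W0 f ≤ W)).op a *
      f.image.presheaf.map (homOfLE (inf_le_right : W ⊓ W0 f ≤ W0 f)).op d
      = f.image.presheaf.map (homOfLE (inf_le_right : W ⊓ W0 f ≤ W0 f)).op c := by
    apply f.image.germToFunctionField_injective (W ⊓ W0 f)
    rw [map_mul, germ_res_ff, germ_res_ff, germ_res_ff]
    exact e1
  have e3 := congrArg (psi f (W ⊓ W0 f) hV) e2
  rw [map_mul, psi_res f W _ hW hV, psi_res f (W0 f) _ hW0 hV, psi_res f (W0 f) _ hW0 hV] at e3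
  have e4 := congrArg (phi f) e1
  rw [map_mul, hlift, hlift] at e4
  have hd1 : psi f (W0 f) hW0 d ≠ 0 := by
    intro h
    exact hd0 (psi_injective f (W0 f) hW0 (h.trans (map_zero _).symm))
  exact mul_right_cancel₀ hd1 (e4.trans e3.symm)

theorem phi_injective : Function.Injective (phi f) := (phi f).injective

theorem psi_app (U : Y.affineOpens) (hW : Nonempty (f.imageι ⁻¹ᵁ U.1 : f.image.Opens))
    (h : ⊤ ≤ f ⁻¹ᵁ U.1) (b : Γ(Y, U.1)) :
    psi f (f.imageι ⁻¹ᵁ U.1) hW (f.imageι.app U.1 b) =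
      (f.appLE U.1 ⊤ h ≫ (Scheme.ΓSpecIso (.of L)).hom).hom b := by
  have e : f.appLE U.1 ⊤ h = f.imageι.app U.1 ≫
      f.toImage.appLE (f.imageι ⁻¹ᵁ U.1) ⊤ (top_le f _ hW) := by
    rw [Scheme.Hom.app_eq_appLE, Scheme.Hom.appLE_comp_appLE]
    congr 1
    exact f.toImage_imageι.symm
  rw [e]
  rfl

theorem psi_range (U : Y.affineOpens) (hW : Nonempty (f.imageι ⁻¹ᵁ U.1 : f.image.Opens))
    (h : ⊤ ≤ f ⁻¹ᵁ U.1) :
    (psi f (f.imageι ⁻¹ᵁ U.1) hW).range =
      (f.appLE U.1 ⊤ h ≫ (Scheme.ΓSpecIso (.of L)).hom).hom.range := by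
  ext y
  constructor
  · rintro ⟨a, rfl⟩
    obtain ⟨b, rfl⟩ := f.ker.subschemeι_app_surjective U a
    exact ⟨b, (psi_app f U hW h b).symm⟩
  · rintro ⟨b, rfl⟩
    exact ⟨_, psi_app f U hW h b⟩

end general

section aux

set_option backward.isDefEq.respectTransparency false in
theorem appLE_aux {Y Z : Scheme.{u}} (U : Y.Opens) (i : U.toScheme ≅ Z)
    (h : ⊤ ≤ (i.inv ≫ U.ι) ⁻¹ᵁ U) :
    (i.inv ≫ U.ι).appLE U ⊤ h = U.topIso.inv ≫ i.inv.appTop := by
  have h2 : i.inv.appTop = U.toScheme.presheaf.map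
      (homOfLE (le_top : U.ι ⁻¹ᵁ U ≤ ⊤)).op ≫ i.inv.appLE (U.ι ⁻¹ᵁ U) ⊤ h := by
    rw [Scheme.Hom.map_appLE, Scheme.Hom.appTop, Scheme.Hom.app_eq_appLE]
    rfl
  rw [Scheme.Hom.comp_appLE, h2, ← Category.assoc]
  congr 1
  simp only [Scheme.Opens.topIso_inv, Scheme.Opens.toScheme_presheaf_map]
  rw [Scheme.Opens.ι_app, ← Functor.map_comp]
  rfl

theorem appLE_aux2 {Y : Scheme.{u}} (U : Y.Opens) (R : CommRingCat.{u})
    (i : U.toScheme ≅ Spec R) (s : R ⟶ Γ(Y, U))
    (hs : i.hom.appTop = (Scheme.ΓSpecIso R).hom ≫ s ≫ U.topIso.inv)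
    (h : ⊤ ≤ (i.inv ≫ U.ι) ⁻¹ᵁ U) :
    s ≫ (i.inv ≫ U.ι).appLE U ⊤ h = (Scheme.ΓSpecIso R).inv := by
  rw [appLE_aux U i h]
  have e3 : i.hom.appTop ≫ i.inv.appTop = 𝟙 _ := by
    rw [← Scheme.Hom.comp_appTop, i.inv_hom_id, Scheme.Hom.id_appTop]
  rw [hs] at e3
  rw [← cancel_epi (Scheme.ΓSpecIso R).hom, Iso.hom_inv_id, ← e3]
  simp only [Category.assoc]

set_option backward.isDefEq.respectTransparency false in
theorem appLE_aux3 {Y : Scheme.{u}} (U : Y.Opens) (R S : CommRingCat.{u})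
    (i : U.toScheme ≅ Spec R) (s : R ⟶ Γ(Y, U))
    (hs : i.hom.appTop = (Scheme.ΓSpecIso R).hom ≫ s ≫ U.topIso.inv) (φ : R ⟶ S)
    (h : ⊤ ≤ (Spec.map φ ≫ i.inv ≫ U.ι) ⁻¹ᵁ U) :
    s ≫ (Spec.map φ ≫ i.inv ≫ U.ι).appLE U ⊤ h ≫ (Scheme.ΓSpecIso S).hom = φ := by
  have h' : ⊤ ≤ (i.inv ≫ U.ι) ⁻¹ᵁ U := by
    intro x _
    exact (i.inv x).2
  have e1 : (Spec.map φ ≫ i.inv ≫ U.ι).appLE U ⊤ h =
      (i.inv ≫ U.ι).appLE U ⊤ h' ≫ (Spec.map φ).appTop := by
    have e2 : (Spec.map φ).appTop = (Spec.map φ).appLE ⊤ ⊤ le_rfl := by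
      rw [Scheme.Hom.appTop, Scheme.Hom.app_eq_appLE]
      rfl
    rw [e2, Scheme.Hom.appLE_comp_appLE]
  rw [e1, ← Category.assoc, ← Category.assoc, appLE_aux2 U R i s hs h', Category.assoc,
    Scheme.ΓSpecIso_naturality, Iso.inv_hom_id_assoc]

end aux

section point

variable (k : Type u) [Field k] {L : Type u} [Field L] [Algebra k L] {N : ℕ}
  (e : Fin (N + 1) → L)


/-- evaluation of polynomials at `e` -/
abbrev evL : MvPolynomial (Fin (N + 1)) k →+* L := (MvPolynomial.aeval e).toRingHom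

/-- evaluation of degree zero fractions -/
def toL (g : MvPolynomial (Fin (N + 1)) k) (hg : evL k e g ≠ 0) :
    HomogeneousLocalization.Away (MvPolynomial.homogeneousSubmodule (Fin (N + 1)) k) g →+* L :=
  (IsLocalization.Away.lift (S := Localization.Away g) g
    (isUnit_iff_ne_zero.2 hg)).comp (algebraMap (HomogeneousLocalization.Away (MvPolynomial.homogeneousSubmodule (Fin (N + 1)) k) g)
      (Localization.Away g))

theorem toL_mk (g : MvPolynomial (Fin (N + 1)) k) (hg : evL k e g ≠ 0) {d : ℕ}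
    (hd : g ∈ (MvPolynomial.homogeneousSubmodule (Fin (N + 1)) k) d) (n : ℕ) (a : MvPolynomial (Fin (N + 1)) k) (ha : a ∈ (MvPolynomial.homogeneousSubmodule (Fin (N + 1)) k) (n • d)) :
    toL k e g hg (HomogeneousLocalization.Away.mk (MvPolynomial.homogeneousSubmodule (Fin (N + 1)) k) hd n a ha) =
      evL k e a / evL k e g ^ n := by
  unfold toL
  rw [RingHom.comp_apply, HomogeneousLocalization.algebraMap_apply,
    HomogeneousLocalization.Away.val_mk, Localization.mk_eq_mk', eq_div_iff (pow_ne_zero _ hg)]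
  have h1 : evL k e g ^ n = IsLocalization.Away.lift (S := Localization.Away g) g
      (isUnit_iff_ne_zero.2 hg) (algebraMap _ _ (g ^ n)) := by
    rw [IsLocalization.Away.lift_eq, map_pow]
  rw [h1, ← map_mul]
  have h2 := IsLocalization.mk'_spec (Localization.Away g) a
    (⟨g ^ n, n, rfl⟩ : Submonoid.powers g)
  rw [h2, IsLocalization.Away.lift_eq]

theorem toL_awayMap (g g' : MvPolynomial (Fin (N + 1)) k) (hg : evL k e g ≠ 0) {d : ℕ}
    (hd : g ∈ (MvPolynomial.homogeneousSubmodule (Fin (N + 1)) k) d) {d' : ℕ} (hd' : g' ∈ (MvPolynomial.homogeneousSubmodule (Fin (N + 1)) k) d') (x : MvPolynomial (Fin (N + 1)) k)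
    (hx : x = g * g') (hxe : evL k e x ≠ 0) :
    (toL k e x hxe).comp (HomogeneousLocalization.awayMap (MvPolynomial.homogeneousSubmodule (Fin (N + 1)) k) hd' hx) = toL k e g hg := by
  refine RingHom.ext fun z => ?_
  obtain ⟨n, a, ha, rfl⟩ := HomogeneousLocalization.Away.mk_surjective (MvPolynomial.homogeneousSubmodule (Fin (N + 1)) k) hd z
  rw [toL_mk, RingHom.comp_apply, HomogeneousLocalization.awayMap_mk, toL_mk, hx, map_mul,
    map_mul, map_pow, mul_pow]
  have hg' : evL k e g' ≠ 0 := by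
    intro h
    apply hxe
    rw [hx, map_mul, h, mul_zero]
  exact mul_div_mul_right _ _ (pow_ne_zero n hg')

/-- the point of projective space with coordinates `e`, through the chart of `g` -/
def pt (g : MvPolynomial (Fin (N + 1)) k) (hg : evL k e g ≠ 0) {d : ℕ}
    (hd : g ∈ (MvPolynomial.homogeneousSubmodule (Fin (N + 1)) k) d) (hd0 : 0 < d) : Spec (.of L) ⟶ Proj (MvPolynomial.homogeneousSubmodule (Fin (N + 1)) k) :=
  Spec.map (CommRingCat.ofHom (toL k e g hg)) ≫ Proj.awayι (MvPolynomial.homogeneousSubmodule (Fin (N + 1)) k) g hd hd0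

theorem pt_mul (g g' : MvPolynomial (Fin (N + 1)) k) (hg : evL k e g ≠ 0) {d : ℕ}
    (hd : g ∈ (MvPolynomial.homogeneousSubmodule (Fin (N + 1)) k) d) (hd0 : 0 < d) {d' : ℕ} (hd' : g' ∈ (MvPolynomial.homogeneousSubmodule (Fin (N + 1)) k) d') (x : MvPolynomial (Fin (N + 1)) k)
    (hx : x = g * g') (hxe : evL k e x ≠ 0) :
    pt k e g hg hd hd0 = pt k e x hxe (d := d + d') (hx ▸ SetLike.mul_mem_graded hd hd')
      (Nat.add_pos_left hd0 _) := by
  unfold pt
  rw [← Proj.SpecMap_awayMap_awayι _ hd hd0 hd' hx, ← Category.assoc, ← Spec.map_comp,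
    ← CommRingCat.ofHom_comp, toL_awayMap k e g g' hg hd hd' x hx hxe]

theorem pt_eq (g g' : MvPolynomial (Fin (N + 1)) k) (hg : evL k e g ≠ 0) (hg' : evL k e g' ≠ 0)
    {d : ℕ} (hd : g ∈ (MvPolynomial.homogeneousSubmodule (Fin (N + 1)) k) d) (hd0 : 0 < d) {d' : ℕ} (hd' : g' ∈ (MvPolynomial.homogeneousSubmodule (Fin (N + 1)) k) d') (hd0' : 0 < d') :
    pt k e g hg hd hd0 = pt k e g' hg' hd' hd0' := by
  have hxe : evL k e (g * g') ≠ 0 := by
    rw [map_mul]; exact mul_ne_zero hg hg'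
  rw [pt_mul k e g g' hg hd hd0 hd' (g * g') rfl hxe,
    pt_mul k e g' g hg' hd' hd0' hd (g * g') (mul_comm _ _) hxe]
  congr 1
  exact add_comm _ _

/-- the ring homomorphism belonging to the point on the chart of `g` -/
theorem pt_appLE (g : MvPolynomial (Fin (N + 1)) k) (hg : evL k e g ≠ 0)
    {d : ℕ} (hd : g ∈ (MvPolynomial.homogeneousSubmodule (Fin (N + 1)) k) d) (hd0 : 0 < d)
    (h : ⊤ ≤ pt k e g hg hd hd0 ⁻¹ᵁ (Proj.basicOpen (MvPolynomial.homogeneousSubmodule (Fin (N + 1)) k) g)) :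
    Proj.awayToSection (MvPolynomial.homogeneousSubmodule (Fin (N + 1)) k) g ≫ (pt k e g hg hd hd0).appLE (Proj.basicOpen (MvPolynomial.homogeneousSubmodule (Fin (N + 1)) k) g) ⊤ h ≫
      (Scheme.ΓSpecIso (.of L)).hom = CommRingCat.ofHom (toL k e g hg) := by
  refine appLE_aux3 (Proj.basicOpen (MvPolynomial.homogeneousSubmodule (Fin (N + 1)) k) g) (.of (HomogeneousLocalization.Away (MvPolynomial.homogeneousSubmodule (Fin (N + 1)) k) g)) (.of L)
    (Proj.basicOpenIsoSpec (MvPolynomial.homogeneousSubmodule (Fin (N + 1)) k) g hd hd0) (Proj.awayToSection (MvPolynomial.homogeneousSubmodule (Fin (N + 1)) k) g) ?_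
    (CommRingCat.ofHom (toL k e g hg)) h
  have e1 := Proj.basicOpenToSpec_app_top (MvPolynomial.homogeneousSubmodule (Fin (N + 1)) k) g
  rw [← Proj.basicOpenIsoSpec_hom (MvPolynomial.homogeneousSubmodule (Fin (N + 1)) k) g hd hd0] at e1
  exact e1

end point

end Img

end FQ
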