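import Pool.Agent.FQ.Img
import Pool.Agent.Helper41.FQ.Iface

/-!
FQ-IMG: existence of the model of Iface.lean through the scheme-theoretic image of an `L`-point
of projective space.
-/

open CategoryTheory AlgebraicGeometry TopologicalSpace HomogeneousLocalization
universe u
noncomputable section

set_option linter.unusedSectionVars false

namespace FQ
attribute [local instance] MvPolynomial.gradedAlgebra
namespace Img

theorem quasiCompact_point {L : Type u} [Field L] {Y : Scheme.{u}} (f : Spec (.of L) ⟶ Y) :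
    QuasiCompact f := by
  constructor
  intro U _ _
  have : Finite (Spec (.of L)) := inferInstanceAs (Finite (PrimeSpectrum L))
  exact (Set.toFinite _).isCompact

variable (k : Type u) [Field k] {L : Type u} [Field L] [Algebra k L] {N : ℕ}
  (e : Fin (N + 1) → L)

theorem aeval_div {σ : Type*} (e : σ → L) (c : L) (n : ℕ) (a : MvPolynomial σ k)
    (ha : a.IsHomogeneous n) :
    MvPolynomial.aeval (fun j => e j / c) a = MvPolynomial.aeval e a / c ^ n := by
  rw [MvPolynomial.aeval_def, MvPolynomial.aeval_def, MvPolynomial.eval₂_eq, MvPolynomial.eval₂_eq,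
    Finset.sum_div]
  refine Finset.sum_congr rfl fun d hd => ?_
  have hdeg : d.degree = n := by
    have := ha (MvPolynomial.mem_support_iff.1 hd)
    rw [← this, Finsupp.degree_eq_weight_one]
    rfl
  rw [mul_div_assoc]
  congr 1
  simp only [div_pow]
  rw [Finset.prod_div_distrib, Finset.prod_pow_eq_pow_sum]
  congr 2

instance scalarTower0 : IsScalarTower k
    (MvPolynomial.homogeneousSubmodule (Fin (N + 1)) k 0) (MvPolynomial (Fin (N + 1)) k) :=
  ⟨fun c a x => by
    change (c • (a : MvPolynomial (Fin (N + 1)) k)) * x = c • ((a : MvPolynomial _ k) * x)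
    rw [smul_mul_assoc]⟩

instance finiteType0 : Algebra.FiniteType
    (MvPolynomial.homogeneousSubmodule (Fin (N + 1)) k 0) (MvPolynomial (Fin (N + 1)) k) := by
  have : Algebra.FiniteType k (MvPolynomial (Fin (N + 1)) k) := inferInstance
  exact Algebra.FiniteType.of_restrictScalars_finiteType k _ _

theorem isIso_str0 : IsIso (Spec.map (CommRingCat.ofHom
      (algebraMap k (MvPolynomial.homogeneousSubmodule (Fin (N + 1)) k 0)))) := by
  have hb : Function.Bijective
      (algebraMap k (MvPolynomial.homogeneousSubmodule (Fin (N + 1)) k 0)) := by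
    constructor
    · intro c c' h
      have h2 := congrArg Subtype.val h
      exact MvPolynomial.C_injective _ _ h2
    · rintro ⟨a, ha⟩
      have h2 := MvPolynomial.totalDegree_eq_zero_iff_eq_C.1
        (Nat.le_zero.1 (MvPolynomial.IsHomogeneous.totalDegree_le ha))
      exact ⟨MvPolynomial.coeff 0 a, Subtype.ext h2.symm⟩
  have : IsIso (CommRingCat.ofHom
      (algebraMap k (MvPolynomial.homogeneousSubmodule (Fin (N + 1)) k 0))) :=
    (ConcreteCategory.isIso_iff_bijective _).2 hb
  infer_instance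

instance proper_str : IsProper (PP.str k N) := by
  have := isIso_str0 (N := N) k
  have h : IsProper (Proj.toSpecZero (MvPolynomial.homogeneousSubmodule (Fin (N + 1)) k) ≫
    Spec.map (CommRingCat.ofHom
      (algebraMap k (MvPolynomial.homogeneousSubmodule (Fin (N + 1)) k 0)))) := inferInstance
  exact h

theorem iSup_chart : ⨆ i, PP.chart k N i = ⊤ := by
  refine Proj.iSup_basicOpen_eq_top' (MvPolynomial.homogeneousSubmodule (Fin (N + 1)) k)
    (fun i => MvPolynomial.X i) (fun i => ⟨1, MvPolynomial.isHomogeneous_X k i⟩) ?_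
  rw [eq_top_iff]
  intro a _
  induction a using MvPolynomial.induction_on with
  | C c =>
    exact Subalgebra.algebraMap_mem _ (algebraMap k
      (MvPolynomial.homogeneousSubmodule (Fin (N + 1)) k 0) c)
  | add p q hp hq => exact add_mem (hp trivial) (hq trivial)
  | mul_X p i hp => exact mul_mem (hp trivial) (Algebra.subset_adjoin ⟨i, rfl⟩)

theorem X_mem (i : Fin (N + 1)) : (MvPolynomial.X i : MvPolynomial (Fin (N + 1)) k) ∈
    MvPolynomial.homogeneousSubmodule (Fin (N + 1)) k 1 := MvPolynomial.isHomogeneous_X k i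

theorem evL_X (i : Fin (N + 1)) : evL k e (MvPolynomial.X i) = e i :=
  MvPolynomial.aeval_X e i

variable {e} (he : ∀ i, e i ≠ 0)

/-- the point of projective space with coordinates `e` -/
def P0 : Spec (.of L) ⟶ PP k N :=
  pt k e (MvPolynomial.X 0) (by rw [evL_X]; exact he 0) (X_mem k 0) one_pos

theorem P0_eq (i : Fin (N + 1)) : P0 k he =
    pt k e (MvPolynomial.X i) (by rw [evL_X]; exact he i) (X_mem k i)
      one_pos :=
  pt_eq k e _ _ _ _ _ _ _ _

theorem P0_top_le (i : Fin (N + 1)) : ⊤ ≤ P0 k he ⁻¹ᵁ PP.chart k N i := by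
  rw [P0_eq k he i]
  intro x _
  have h := Proj.opensRange_awayι (MvPolynomial.homogeneousSubmodule (Fin (N + 1)) k)
    (MvPolynomial.X i) (X_mem k i) one_pos
  have h2 : ∀ (U : (Proj (MvPolynomial.homogeneousSubmodule (Fin (N + 1)) k)).Opens),
    (Proj.awayι (MvPolynomial.homogeneousSubmodule (Fin (N + 1)) k)
    (MvPolynomial.X i) (X_mem k i) one_pos).opensRange = U →
    pt k e (MvPolynomial.X i) (by rw [evL_X]; exact he i) (X_mem k i)
      one_pos x ∈ U := by
    rintro U rfl
    exact ⟨_, rfl⟩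
  exact h2 _ h

theorem P0_appLE (i : Fin (N + 1))
    (z : HomogeneousLocalization.Away (MvPolynomial.homogeneousSubmodule (Fin (N + 1)) k)
      (MvPolynomial.X i)) :
    ((P0 k he).appLE (PP.chart k N i) ⊤ (P0_top_le k he i) ≫
      (Scheme.ΓSpecIso (.of L)).hom).hom ((Proj.awayToSection _ (MvPolynomial.X i)).hom z) =
      toL k e (MvPolynomial.X i) (by rw [evL_X]; exact he i) z := by
  have key : ∀ (f : Spec (.of L) ⟶ Proj (MvPolynomial.homogeneousSubmodule (Fin (N + 1)) k))
      (hf : f = pt k e (MvPolynomial.X i) (by rw [evL_X]; exact he i)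
        (X_mem k i) one_pos)
      (h : ⊤ ≤ f ⁻¹ᵁ Proj.basicOpen _ (MvPolynomial.X i)),
      Proj.awayToSection _ (MvPolynomial.X i) ≫ f.appLE (Proj.basicOpen _ (MvPolynomial.X i)) ⊤ h ≫
      (Scheme.ΓSpecIso (.of L)).hom =
        CommRingCat.ofHom (toL k e (MvPolynomial.X i) (by rw [evL_X]; exact he i)) := by
    intro f hf h
    subst hf
    exact pt_appLE k e _ _ _ _ h
  have h1 := key (P0 k he) (P0_eq k he i) (P0_top_le k he i)
  exact congrArg (fun g => g.hom z) h1

instance : QuasiCompact (P0 k he) := quasiCompact_point _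

theorem affine_chart (i : Fin (N + 1)) : IsAffineOpen (PP.chart k N i) :=
  Proj.isAffineOpen_basicOpen (MvPolynomial.homogeneousSubmodule (Fin (N + 1)) k)
    (MvPolynomial.X i) (X_mem k i) one_pos

/-- the charts of the closure of the point -/
def Wi (i : Fin (N + 1)) : (P0 k he).image.Opens := (P0 k he).imageι ⁻¹ᵁ PP.chart k N i

theorem Wi_nonempty (i : Fin (N + 1)) : Nonempty (Wi k he i) := by
  refine ⟨⟨(P0 k he).toImage (⊥ : PrimeSpectrum L), ?_⟩⟩
  have h1 : ((P0 k he).toImage ≫ (P0 k he).imageι) (⊥ : PrimeSpectrum L) ∈ PP.chart k N i := by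
    rw [Scheme.Hom.toImage_imageι]
    exact P0_top_le k he i trivial
  exact h1

theorem coord_val (i j : Fin (N + 1)) :
    ((P0 k he).appLE (PP.chart k N i) ⊤ (P0_top_le k he i) ≫
      (Scheme.ΓSpecIso (.of L)).hom).hom (PP.coord k N i j) = e j / e i := by
  refine (P0_appLE k he i (HomogeneousLocalization.Away.mk _ (X_mem k i) 1 (MvPolynomial.X j)
    (by rw [one_smul]; exact MvPolynomial.isHomogeneous_X _ _))).trans ?_
  rw [toL_mk, evL_X, evL_X, pow_one]

theorem range_chart (i : Fin (N + 1)) (z : L) :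
    (∃ y : Γ(PP k N, PP.chart k N i), ((P0 k he).appLE (PP.chart k N i) ⊤ (P0_top_le k he i) ≫
      (Scheme.ΓSpecIso (.of L)).hom).hom y = z) ↔
    z ∈ Algebra.adjoin k (Set.range fun j => e j / e i) := by
  have hi := he i
  have hX : evL k e (MvPolynomial.X i) ≠ 0 := by rw [evL_X]; exact hi
  have hsurj : Function.Surjective (Proj.awayToSection
      (MvPolynomial.homogeneousSubmodule (Fin (N + 1)) k) (MvPolynomial.X i)).hom := by
    have h := Proj.basicOpenIsoAway_hom (MvPolynomial.homogeneousSubmodule (Fin (N + 1)) k)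
      (MvPolynomial.X i) (X_mem k i) one_pos
    rw [← h]
    exact (ConcreteCategory.bijective_of_isIso _).2
  constructor
  · rintro ⟨y, rfl⟩
    obtain ⟨w, rfl⟩ := hsurj y
    have h1 := P0_appLE k he i w
    refine (congrArg (· ∈ Algebra.adjoin k (Set.range fun j => e j / e i)) h1).mpr ?_
    obtain ⟨n, a, ha, rfl⟩ := HomogeneousLocalization.Away.mk_surjective _ (X_mem k i) w
    rw [toL_mk, evL_X]
    have ha' : a.IsHomogeneous n := by
      have := (MvPolynomial.mem_homogeneousSubmodule _ _).1 ha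
      simpa using this
    have h2 := aeval_div k e (e i) n a ha'
    rw [Algebra.adjoin_range_eq_range_aeval]
    exact ⟨a, h2⟩
  · intro hz
    rw [Algebra.adjoin_range_eq_range_aeval] at hz
    obtain ⟨a, rfl⟩ := hz
    change ∃ y, _ = MvPolynomial.aeval (fun j => e j / e i) a
    induction a using MvPolynomial.induction_on with
    | C c =>
      refine ⟨(Proj.awayToSection _ (MvPolynomial.X i)).hom
        (HomogeneousLocalization.Away.mk _ (X_mem k i) 0 (MvPolynomial.C c)
          (by rw [zero_smul]; exact MvPolynomial.isHomogeneous_C _ _)), ?_⟩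
      rw [P0_appLE k he i, toL_mk]
      simp
    | add p q hp hq =>
      obtain ⟨y, hy⟩ := hp
      obtain ⟨y', hy'⟩ := hq
      refine ⟨y + y', ?_⟩
      rw [map_add, map_add, hy, hy']
    | mul_X p j hp =>
      obtain ⟨y, hy⟩ := hp
      refine ⟨y * PP.coord k N i j, ?_⟩
      rw [map_mul, map_mul, hy, MvPolynomial.aeval_X, coord_val]

/-- the function `e j / e i` on the closure -/
def co (i j : Fin (N + 1)) : Γ((P0 k he).image, Wi k he i) :=
  ((P0 k he).imageι.app (PP.chart k N i)).hom (PP.coord k N i j)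

theorem phi_co (i j : Fin (N + 1)) [Nonempty (Wi k he i)] :
    phi (P0 k he) ((P0 k he).image.germToFunctionField (Wi k he i) (co k he i j)) = e j / e i := by
  rw [phi_germ]
  exact (psi_app (P0 k he) ⟨PP.chart k N i, affine_chart k i⟩ (Wi_nonempty k he i)
    (P0_top_le k he i) (PP.coord k N i j)).trans (coord_val k he i j)

theorem awayι_appLE (g : MvPolynomial (Fin (N + 1)) k)
    {d : ℕ} (hd : g ∈ MvPolynomial.homogeneousSubmodule (Fin (N + 1)) k d) (hd0 : 0 < d)
    (h : ⊤ ≤ Proj.awayι (MvPolynomial.homogeneousSubmodule (Fin (N + 1)) k) g hd hd0 ⁻¹ᵁ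
      Proj.basicOpen _ g) :
    Proj.awayToSection (MvPolynomial.homogeneousSubmodule (Fin (N + 1)) k) g ≫
      (Proj.awayι _ g hd hd0).appLE (Proj.basicOpen _ g) ⊤ h =
      (Scheme.ΓSpecIso (.of (HomogeneousLocalization.Away
        (MvPolynomial.homogeneousSubmodule (Fin (N + 1)) k) g))).inv := by
  refine appLE_aux2 (Proj.basicOpen _ g) (.of (HomogeneousLocalization.Away _ g))
    (Proj.basicOpenIsoSpec _ g hd hd0) (Proj.awayToSection _ g) ?_ h
  have e1 := Proj.basicOpenToSpec_app_top
    (MvPolynomial.homogeneousSubmodule (Fin (N + 1)) k) g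
  rw [← Proj.basicOpenIsoSpec_hom _ g hd hd0] at e1
  exact e1

theorem mem_basicOpen_awayToSection (g : MvPolynomial (Fin (N + 1)) k)
    {d : ℕ} (hd : g ∈ MvPolynomial.homogeneousSubmodule (Fin (N + 1)) k d) (hd0 : 0 < d)
    (z : HomogeneousLocalization.Away (MvPolynomial.homogeneousSubmodule (Fin (N + 1)) k) g)
    (y : Spec (.of (HomogeneousLocalization.Away
      (MvPolynomial.homogeneousSubmodule (Fin (N + 1)) k) g))) :
    Proj.awayι _ g hd hd0 y ∈ (Proj (MvPolynomial.homogeneousSubmodule (Fin (N + 1)) k)).basicOpen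
      ((Proj.awayToSection _ g).hom z) ↔ y ∈ PrimeSpectrum.basicOpen z := by
  have h : ⊤ ≤ Proj.awayι (MvPolynomial.homogeneousSubmodule (Fin (N + 1)) k) g hd hd0 ⁻¹ᵁ
      Proj.basicOpen _ g := by
    intro x _
    have h1 := Proj.opensRange_awayι (MvPolynomial.homogeneousSubmodule (Fin (N + 1)) k) g hd hd0
    rw [← h1]
    exact ⟨_, rfl⟩
  have e1 : ((Proj.awayι _ g hd hd0).appLE (Proj.basicOpen _ g) ⊤ h).hom
      ((Proj.awayToSection _ g).hom z) = (Scheme.ΓSpecIso (.of (HomogeneousLocalization.Away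
        (MvPolynomial.homogeneousSubmodule (Fin (N + 1)) k) g))).inv.hom z :=
    congrArg (fun φ => φ.hom z) (awayι_appLE k g hd hd0 h)
  have e2 := Scheme.basicOpen_appLE (Proj.awayι _ g hd hd0) ⊤ (Proj.basicOpen _ g) h
    ((Proj.awayToSection _ g).hom z)
  have e3 : (Spec (.of (HomogeneousLocalization.Away
        (MvPolynomial.homogeneousSubmodule (Fin (N + 1)) k) g))).basicOpen
        (((Proj.awayι _ g hd hd0).appLE (Proj.basicOpen _ g) ⊤ h).hom
      ((Proj.awayToSection _ g).hom z)) = PrimeSpectrum.basicOpen z := by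
    rw [e1]
    exact basicOpen_eq_of_affine (R := .of (HomogeneousLocalization.Away
        (MvPolynomial.homogeneousSubmodule (Fin (N + 1)) k) g)) z
  rw [top_inf_eq] at e2
  have e4 := e2.symm.trans e3
  exact (congrArg (y ∈ ·) e4).to_iff

theorem basicOpen_coord (i j : Fin (N + 1)) :
    (PP k N).basicOpen (PP.coord k N i j) = PP.chart k N i ⊓ PP.chart k N j := by
  have hle : (PP k N).basicOpen (PP.coord k N i j) ≤ PP.chart k N i := Scheme.basicOpen_le _ _
  have key : ∀ x ∈ PP.chart k N i,
      (x ∈ (PP k N).basicOpen (PP.coord k N i j) ↔ x ∈ PP.chart k N j) := by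
    intro x hx
    have h1 := Proj.opensRange_awayι (MvPolynomial.homogeneousSubmodule (Fin (N + 1)) k)
      (MvPolynomial.X i) (X_mem k i) one_pos
    have hx' : x ∈ (Proj.awayι (MvPolynomial.homogeneousSubmodule (Fin (N + 1)) k)
      (MvPolynomial.X i) (X_mem k i) one_pos).opensRange := by
      rw [h1]; exact hx
    obtain ⟨y, rfl⟩ := hx'
    have h2 := mem_basicOpen_awayToSection k (MvPolynomial.X i) (X_mem k i) one_pos
      (HomogeneousLocalization.Away.mk _ (X_mem k i) 1 (MvPolynomial.X j)
        (by rw [one_smul]; exact MvPolynomial.isHomogeneous_X _ _)) y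
    refine h2.trans ?_
    have h3 := Proj.awayι_preimage_basicOpen
      (MvPolynomial.homogeneousSubmodule (Fin (N + 1)) k) (X_mem k i) one_pos (X_mem k j) one_pos
    have h4 : (HomogeneousLocalization.Away.mk _ (X_mem k i) 1 (MvPolynomial.X j)
        (by rw [one_smul]; exact MvPolynomial.isHomogeneous_X _ _)) =
        HomogeneousLocalization.Away.isLocalizationElem (X_mem k i) (X_mem k j) := by
      ext
      simp [HomogeneousLocalization.Away.isLocalizationElem]
    rw [h4]
    exact (congrArg (y ∈ ·) h3).to_iff.symm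
  ext x
  constructor
  · intro hx
    exact ⟨hle hx, (key x (hle hx)).1 hx⟩
  · rintro ⟨hx1, hx2⟩
    exact (key x hx1).2 hx2

theorem basicOpen_co (i j : Fin (N + 1)) :
    (P0 k he).image.basicOpen (co k he i j) = Wi k he i ⊓ Wi k he j := by
  refine (Scheme.preimage_basicOpen (P0 k he).imageι (PP.coord k N i j)).symm.trans ?_
  rw [basicOpen_coord]
  rfl

theorem P0_str : P0 k he ≫ PP.str k N = Spec.map (CommRingCat.ofHom (algebraMap k L)) := by
  have h : ∀ (f : Spec (.of L) ⟶ Proj (MvPolynomial.homogeneousSubmodule (Fin (N + 1)) k))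
      (hf : f = pt k e (MvPolynomial.X 0) (by rw [evL_X]; exact he 0) (X_mem k 0) one_pos),
      f ≫ Proj.toSpecZero (MvPolynomial.homogeneousSubmodule (Fin (N + 1)) k) ≫
    Spec.map (CommRingCat.ofHom
      (algebraMap k (MvPolynomial.homogeneousSubmodule (Fin (N + 1)) k 0))) =
      Spec.map (CommRingCat.ofHom (algebraMap k L)) := by
    rintro _ rfl
    unfold pt
    rw [Category.assoc, Proj.awayι_toSpecZero_assoc, ← Spec.map_comp, ← Spec.map_comp,
      ← CommRingCat.ofHom_comp, ← CommRingCat.ofHom_comp]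
    congr 2
    refine RingHom.ext fun c => ?_
    have h2 : (HomogeneousLocalization.fromZeroRingHom
        (MvPolynomial.homogeneousSubmodule (Fin (N + 1)) k) (Submonoid.powers (MvPolynomial.X 0)))
        (algebraMap k _ c) = HomogeneousLocalization.Away.mk _ (X_mem k 0) 0 (MvPolynomial.C c)
          (by rw [zero_smul]; exact MvPolynomial.isHomogeneous_C _ _) := by
      ext
      simp [HomogeneousLocalization.fromZeroRingHom] <;> rfl
    simp only [RingHom.comp_apply]
    rw [h2, toL_mk]
    simp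
  exact h _ rfl

set_option backward.isDefEq.respectTransparency false in
theorem comp_aux {X Y Z : Scheme.{u}} (f : X ⟶ Y) (g : Y ⟶ Z) (W : Y.Opens)
    (h : ⊤ ≤ f ⁻¹ᵁ W) (F : X ⟶ Z) (hF : f ≫ g = F) :
    g.appLE ⊤ W le_top ≫ f.appLE W ⊤ h = F.appTop := by
  rw [Scheme.Hom.appLE_comp_appLE, Scheme.Hom.appTop, Scheme.Hom.app_eq_appLE, ← hF]
  rfl

theorem phi_scal (c : k) :
    phi (P0 k he) (scalK ((P0 k he).imageι ≫ PP.str k N) c) = algebraMap k L c := by
  have hi := Wi_nonempty k he 0
  rw [← scalK_eq ((P0 k he).imageι ≫ PP.str k N) (Wi k he 0) c, phi_germ]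
  set s := (P0 k he).imageι ≫ PP.str k N with hs
  have e1 : (s.appLE ⊤ (Wi k he 0) le_top) ≫
      (P0 k he).toImage.appLE (Wi k he 0) ⊤ (top_le (P0 k he) _ hi) =
      (Spec.map (CommRingCat.ofHom (algebraMap k L))).appTop := by
    have h1 : (P0 k he).toImage ≫ s = Spec.map (CommRingCat.ofHom (algebraMap k L)) := by
      rw [hs, Scheme.Hom.toImage_imageι_assoc, P0_str]
    exact comp_aux _ _ _ _ _ h1
  have e2 : (Scheme.ΓSpecIso (.of k)).inv ≫ (s.appLE ⊤ (Wi k he 0) le_top) ≫
      (P0 k he).toImage.appLE (Wi k he 0) ⊤ (top_le (P0 k he) _ hi) ≫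
      (Scheme.ΓSpecIso (.of L)).hom = CommRingCat.ofHom (algebraMap k L) := by
    rw [reassoc_of% e1, Scheme.ΓSpecIso_naturality, Iso.inv_hom_id_assoc]
  exact congrArg (fun φ => φ.hom c) e2

/-- The model. -/
def model : Model (k := k) e where
  X := (P0 k he).image
  s := (P0 k he).imageι ≫ PP.str k N
  integral := isIntegral (P0 k he)
  proper := inferInstance
  projective := ⟨N, (P0 k he).imageι, inferInstance, rfl⟩
  ev := phi (P0 k he)
  ev_scal := phi_scal k he
  W := Wi k he
  affine := fun i => (affine_chart k i).preimage _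
  nonempty := Wi_nonempty k he
  cover := by
    have h := iSup_chart (N := N) k
    have h2 := congrArg (fun U => (P0 k he).imageι ⁻¹ᵁ U) h
    simp only [Scheme.Hom.preimage_iSup, Scheme.Hom.preimage_top] at h2
    exact h2
  range := by
    intro i z
    have hi := Wi_nonempty k he i
    rw [← range_chart k he i z]
    constructor
    · rintro ⟨y, rfl⟩
      rw [phi_germ]
      have h := psi_range (P0 k he) ⟨PP.chart k N i, affine_chart k i⟩ hi (P0_top_le k he i)
      have h2 : psi (P0 k he) (Wi k he i) hi y ∈ (psi (P0 k he) (Wi k he i) hi).range := ⟨y, rfl⟩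
      have h3 := (congrArg (psi (P0 k he) (Wi k he i) hi y ∈ ·) h).mp h2
      exact h3
    · rintro ⟨y, rfl⟩
      let y' : Γ((P0 k he).image, Wi k he i) :=
        ((P0 k he).imageι.app (PP.chart k N i)).hom y
      refine ⟨y', (phi_germ (P0 k he) (Wi k he i) y').trans ?_⟩
      exact psi_app (P0 k he) ⟨PP.chart k N i, affine_chart k i⟩ hi (P0_top_le k he i) y
  basic := by
    intro i j y hy
    have hi := Wi_nonempty k he i
    have h1 : y = co k he i j := by
      apply (P0 k he).image.germToFunctionField_injective (Wi k he i)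
      apply phi_injective (P0 k he)
      exact hy.trans (phi_co k he i j).symm
    rw [h1]
    exact basicOpen_co k he i j

end Img

/-- Existence of the model. -/
theorem exists_model {k : Type u} [Field k] {L : Type u} [Field L] [Algebra k L] {N : ℕ}
    (e : Fin (N + 1) → L) (he : ∀ i, e i ≠ 0) : Nonempty (Model (k := k) e) :=
  ⟨Img.model k he⟩

end FQ
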